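import Pool.Agent.H902Z.ME.Medium

set_option autoImplicit false

open MeasureTheory Filter Topology
open scoped RealInnerProductSpace

namespace Pool.Agent.H902Z.ME

variable {d : ℕ}

theorem mset (R : ℝ) : MeasurableSet {x : Rd d | R < ‖x‖} :=
  (isOpen_lt continuous_const continuous_norm).measurableSet

theorem hk_le (k x : Rd d) {R : ℝ} (hx : ‖x‖ ≤ R) :
    2 * (1 - Real.cos ⟪k, x⟫) ≤ (‖k‖ * R) ^ 2 := by
  have h1 := Real.one_sub_sq_div_two_le_cos (x := ⟪k, x⟫)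
  have h2 : |⟪k, x⟫| ≤ ‖k‖ * R :=
    (abs_real_inner_le_norm k x).trans (mul_le_mul_of_nonneg_left hx (norm_nonneg _))
  have h3 : ⟪k, x⟫ ^ 2 ≤ (‖k‖ * R) ^ 2 := by
    rw [← sq_abs]
    exact pow_le_pow_left₀ (abs_nonneg _) h2 2
  linarith

theorem lemmaA {f : Rd d → ℝ} (hf : Integrable f) (h0 : ∀ x, 0 ≤ f x) (ε : ℝ) (hε : 0 < ε) :
    ∃ C : ℝ, ∀ k, ‖T f 0 - T f k‖ ^ 2 ≤ ε * D f k + C * ‖k‖ ^ 2 := by
  obtain ⟨R, hR, hR'⟩ := tail_small hf (ε / 4) (by linarith)
  have ht := hR' R le_rfl h0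
  have hI : 0 ≤ ∫ x, f x := integral_nonneg h0
  refine ⟨2 * (R * ∫ x, f x) ^ 2, fun k => ?_⟩
  have hD := D_nonneg h0 k
  have key : ∀ t : ℝ, 0 < t →
      ‖T f 0 - T f k‖ ≤ ‖k‖ * R * (∫ x, f x) + t / 2 * tail f R + 1 / t * D f k := by
    intro t ht0
    have i1 := hf.const_mul (‖k‖ * R)
    have i2 := (hf.indicator (mset R)).const_mul (t / 2)
    have i3 := (int_D hf k).const_mul (1 / t)
    have i12 : Integrable (fun x => ‖k‖ * R * f x + t / 2 * {x : Rd d | R < ‖x‖}.indicator f x) :=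
      i1.add i2
    rw [T_diff hf, tail, D, ← integral_indicator (mset R), ← integral_const_mul,
      ← integral_const_mul, ← integral_const_mul, ← integral_add i1 i2, ← integral_add i12 i3]
    refine norm_integral_le_of_norm_le (i12.add i3) (Eventually.of_forall fun x => ?_)
    rw [norm_mul, Complex.norm_real, Real.norm_eq_abs, abs_of_nonneg (h0 x)]
    have n1 := normsq_one_sub k x
    have n0 := norm_nonneg (1 - ew k x)
    have n2 := hk_nonneg k x
    have f0 := h0 x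
    have kR : 0 ≤ ‖k‖ * R := by positivity
    by_cases hx : R < ‖x‖
    · rw [Set.indicator_of_mem (show x ∈ {x : Rd d | R < ‖x‖} from hx)]
      have a1 : ‖1 - ew k x‖ ≤ t / 2 + 1 / t * (1 - Real.cos ⟪k, x⟫) := by
        have : t * ‖1 - ew k x‖ ≤ t * (t / 2 + 1 / t * (1 - Real.cos ⟪k, x⟫)) := by
          have : t * (t / 2 + 1 / t * (1 - Real.cos ⟪k, x⟫)) =
              t ^ 2 / 2 + (1 - Real.cos ⟪k, x⟫) := by field_simp
          rw [this]
          nlinarith [sq_nonneg (t - ‖1 - ew k x‖)]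
        exact le_of_mul_le_mul_left this ht0
      have := mul_le_mul_of_nonneg_left a1 f0
      nlinarith [mul_nonneg kR f0]
    · rw [Set.indicator_of_notMem (show x ∉ {x : Rd d | R < ‖x‖} from hx)]
      have a1 : ‖1 - ew k x‖ ≤ ‖k‖ * R := by
        have := hk_le k x (not_lt.1 hx)
        exact (pow_le_pow_iff_left₀ n0 kR two_ne_zero).1 (by linarith)
      have := mul_le_mul_of_nonneg_left a1 f0
      have a2 : 0 ≤ 1 / t * (f x * (1 - Real.cos ⟪k, x⟫)) := by positivity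
      nlinarith
  set A := ‖T f 0 - T f k‖ with hA
  set a := ‖k‖ * R * ∫ x, f x with ha
  have a0 : 0 ≤ a := by positivity
  have A0 : 0 ≤ A := norm_nonneg _
  have e : 2 * (R * ∫ x, f x) ^ 2 * ‖k‖ ^ 2 = 2 * a ^ 2 := by rw [ha]; ring
  rw [e]
  by_cases hc : A ≤ a
  · have := mul_nonneg hε.le hD
    nlinarith
  · push Not at hc
    have hp : 0 < A - a := by linarith
    have h1 := key ((A - a) / (ε / 4)) (by positivity)
    have h2 : (A - a) / (ε / 4) / 2 * tail f R ≤ (A - a) / 2 := by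
      calc (A - a) / (ε / 4) / 2 * tail f R ≤ (A - a) / (ε / 4) / 2 * (ε / 4) := by gcongr
        _ = (A - a) / 2 := by field_simp
    have h3 : (A - a) / 2 ≤ 1 / ((A - a) / (ε / 4)) * D f k := by linarith
    have h4 : 1 / ((A - a) / (ε / 4)) * D f k = ε / 4 * D f k / (A - a) := by field_simp
    rw [h4, le_div_iff₀ hp] at h3
    nlinarith [sq_nonneg (A - 2 * a)]

/-- decay at infinity -/
def Dec (g : Rd d → ℝ) : Prop := ∀ ε : ℝ, 0 < ε → ∃ R : ℝ, 0 ≤ R ∧ ∀ x, R < ‖x‖ → g x ≤ ε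

theorem lemmaB {u g : Rd d → ℝ} (hu : Integrable u) (h0 : ∀ x, 0 ≤ u x) (g0 : ∀ x, 0 ≤ g x)
    {B : ℝ} (gB : ∀ x, g x ≤ B) (hg : Dec g) (ε : ℝ) (hε : 0 < ε) :
    ∃ C : ℝ, ∀ k, D (fun x => u x * g x) k ≤ ε * D u k + C * ‖k‖ ^ 2 := by
  obtain ⟨R, hR, hR'⟩ := hg ε hε
  refine ⟨B * R ^ 2 / 2 * ∫ x, u x, fun k => ?_⟩
  have i1 := (int_D hu k).const_mul ε
  have i2 := hu.const_mul (B * R ^ 2 / 2 * ‖k‖ ^ 2)
  have e : B * R ^ 2 / 2 * (∫ x, u x) * ‖k‖ ^ 2 = B * R ^ 2 / 2 * ‖k‖ ^ 2 * ∫ x, u x := by ring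
  rw [e, D, D, ← integral_const_mul, ← integral_const_mul, ← integral_add i1 i2]
  refine integral_mono_of_nonneg (Eventually.of_forall fun x =>
    mul_nonneg (mul_nonneg (h0 x) (g0 x)) (hk_nonneg k x)) (i1.add i2)
    (Eventually.of_forall fun x => ?_)
  have n2 := hk_nonneg k x
  have f0 := h0 x
  have B0 : 0 ≤ B := (g0 x).trans (gB x)
  have p := mul_nonneg f0 n2
  simp only
  by_cases hx : R < ‖x‖
  · have a1 := mul_le_mul_of_nonneg_left (hR' x hx) p
    have : 0 ≤ B * R ^ 2 / 2 * ‖k‖ ^ 2 * u x := by positivity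
    nlinarith
  · have a1 := hk_le k x (not_lt.1 hx)
    have a2 := mul_le_mul_of_nonneg_left (gB x) p
    have a3 := mul_le_mul_of_nonneg_left a1 (mul_nonneg f0 B0)
    have := mul_nonneg hε.le p
    nlinarith

theorem conv_dec {f g : Rd d → ℝ} (hf : Integrable f) (hg : Integrable g) (f0 : ∀ x, 0 ≤ f x)
    (g0 : ∀ x, 0 ≤ g x) {A B : ℝ} (fA : ∀ x, f x ≤ A) (gB : ∀ x, g x ≤ B) : Dec (conv f g) := by
  intro ε hε
  have A0 : 0 ≤ A := (f0 0).trans (fA 0)
  have B0 : 0 ≤ B := (g0 0).trans (gB 0)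
  obtain ⟨R1, p1, h1⟩ := tail_small hf (ε / (2 * (B + 1))) (by positivity)
  obtain ⟨R2, p2, h2⟩ := tail_small hg (ε / (2 * (A + 1))) (by positivity)
  have t1 := h1 (R1 + R2) (by linarith) f0
  have t2 := h2 (R1 + R2) (by linarith) g0
  set R := R1 + R2 with hR
  refine ⟨2 * R, by linarith, fun x hx => ?_⟩
  have i1 := ((hf.indicator (mset R)).comp_sub_left x).const_mul B
  have i2 := (hg.indicator (mset R)).const_mul A
  have key : conv f g x ≤ B * tail f R + A * tail g R := by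
    rw [tail, tail, ← integral_indicator (mset R), ← integral_indicator (mset R),
      ← integral_sub_left_eq_self _ volume x, ← integral_const_mul, ← integral_const_mul,
      ← integral_add i1 i2]
    refine integral_mono_of_nonneg (Eventually.of_forall fun y => mul_nonneg (f0 _) (g0 _))
      (i1.add i2) (Eventually.of_forall fun y => ?_)
    have q1 : 0 ≤ {x : Rd d | R < ‖x‖}.indicator f (x - y) :=
      Set.indicator_nonneg (fun _ _ => f0 _) _
    have q2 : 0 ≤ {x : Rd d | R < ‖x‖}.indicator g y := Set.indicator_nonneg (fun _ _ => g0 _) _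
    simp only
    by_cases hy : R < ‖y‖
    · rw [Set.indicator_of_mem (show y ∈ {x : Rd d | R < ‖x‖} from hy)]
      have := mul_le_mul_of_nonneg_right (fA (x - y)) (g0 y)
      have := mul_nonneg B0 q1
      linarith
    · have hxy : R < ‖x - y‖ := by
        have := norm_sub_norm_le x y
        linarith
      rw [Set.indicator_of_mem (show x - y ∈ {x : Rd d | R < ‖x‖} from hxy)]
      have := mul_le_mul_of_nonneg_left (gB y) (f0 (x - y))
      have := mul_nonneg A0 q2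
      linarith
  have b1 : B * tail f R ≤ ε / 2 := by
    calc B * tail f R ≤ B * (ε / (2 * (B + 1))) := by gcongr
      _ ≤ (B + 1) * (ε / (2 * (B + 1))) := by gcongr; linarith
      _ = ε / 2 := by field_simp
  have b2 : A * tail g R ≤ ε / 2 := by
    calc A * tail g R ≤ A * (ε / (2 * (A + 1))) := by gcongr
      _ ≤ (A + 1) * (ε / (2 * (A + 1))) := by gcongr; linarith
      _ = ε / 2 := by field_simp
  linarith

/-- negligible terms -/
def Sm (P f : Rd d → ℝ) : Prop := ∀ ε : ℝ, 0 < ε → ∃ C : ℝ, ∀ k, f k ≤ ε * P k + C * ‖k‖ ^ 2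

theorem Sm.add {P f g : Rd d → ℝ} (hf : Sm P f) (hg : Sm P g) : Sm P (fun k => f k + g k) := by
  intro ε hε
  obtain ⟨C, hC⟩ := hf (ε / 2) (by linarith)
  obtain ⟨C', hC'⟩ := hg (ε / 2) (by linarith)
  refine ⟨C + C', fun k => ?_⟩
  have := hC k
  have := hC' k
  simp only
  linarith

theorem Sm.mul {P f : Rd d → ℝ} (hP : ∀ k, 0 ≤ P k) (hf : Sm P f) {c : ℝ} (hc : 0 ≤ c) :
    Sm P (fun k => c * f k) := by
  intro ε hε
  obtain ⟨C, hC⟩ := hf (ε / (c + 1)) (by positivity)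
  refine ⟨c * C, fun k => ?_⟩
  have h1 := mul_le_mul_of_nonneg_left (hC k) hc
  have h2 : c * (ε / (c + 1)) ≤ ε := by
    calc c * (ε / (c + 1)) ≤ (c + 1) * (ε / (c + 1)) := by gcongr; linarith
      _ = ε := by field_simp
  have h3 := mul_le_mul_of_nonneg_right h2 (hP k)
  simp only
  nlinarith

theorem Sm.of_le {P Q f : Rd d → ℝ} (hP : ∀ k, 0 ≤ P k) {c : ℝ} (hc : 0 ≤ c)
    (hQ : ∀ k, Q k ≤ c * P k) (hf : Sm Q f) : Sm P f := by
  intro ε hε
  obtain ⟨C, hC⟩ := hf (ε / (c + 1)) (by positivity)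
  refine ⟨C, fun k => (hC k).trans ?_⟩
  have h2 : c * (ε / (c + 1)) ≤ ε := by
    calc c * (ε / (c + 1)) ≤ (c + 1) * (ε / (c + 1)) := by gcongr; linarith
      _ = ε := by field_simp
  have h3 := mul_le_mul_of_nonneg_right h2 (hP k)
  have h4 := mul_le_mul_of_nonneg_left (hQ k) (show 0 ≤ ε / (c + 1) by positivity)
  nlinarith

end Pool.Agent.H902Z.ME
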