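import Pool.Agent.H902Z.ME.Big1

set_option autoImplicit false

open MeasureTheory Filter Topology
open scoped RealInnerProductSpace

namespace Pool.Agent.H902Z.ME

variable {d : ℕ}

theorem fub {u f W : Rd d → ℝ} (hu : Integrable u) (hf : Integrable f)
    (hW : AEStronglyMeasurable W volume) {B : ℝ} (hB : ∀ x, ‖W x‖ ≤ B) :
    Integrable (fun y => f y * ∫ x, u (x - y) * W x) ∧
      ∫ x, W x * conv u f x = ∫ y, f y * ∫ x, u (x - y) * W x := by
  have h1 := hf.convolution_integrand (ContinuousLinearMap.mul ℝ ℝ) hu (μ := volume)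
  simp only [ContinuousLinearMap.mul_apply'] at h1
  have h2 : Integrable (fun p : Rd d × Rd d => f p.2 * u (p.1 - p.2) * W p.1)
      (volume.prod volume) :=
    h1.mul_bdd (c := B) hW.comp_fst (Eventually.of_forall fun p => hB p.1)
  have e1 : ∀ y, f y * ∫ x, u (x - y) * W x = ∫ x, f y * u (x - y) * W x := by
    intro y
    rw [← integral_const_mul]
    simp only [mul_assoc]
  have e2 : ∀ x, W x * conv u f x = ∫ y, f y * u (x - y) * W x := by
    intro x
    rw [conv, ← integral_const_mul]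
    refine integral_congr_ae (Eventually.of_forall fun y => ?_)
    simp only
    ring
  simp only [e1, e2]
  exact ⟨h2.integral_prod_right,
    integral_integral_swap (f := fun x y => f y * u (x - y) * W x) h2⟩

/-- the shift defect -/
noncomputable def Ph (u : Rd d → ℝ) (z : Rd d) : ℝ := ∫ x, u (x - z) * (1 - u x)

section

variable {u : Rd d → ℝ} (hu : Integrable u) (hu1 : ∀ x, 0 ≤ u x ∧ u x ≤ 1)

include hu hu1

theorem w_bd (x : Rd d) : ‖1 - u x‖ ≤ 1 := by
  rw [Real.norm_eq_abs, abs_of_nonneg (sub_nonneg.2 (hu1 x).2)]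
  linarith [(hu1 x).1]

theorem w_meas : AEStronglyMeasurable (fun x => 1 - u x) volume :=
  aestronglyMeasurable_const.sub hu.1

theorem Ph_int (a b : Rd d) : Integrable (fun x => u (x - a) * (1 - u (x - b))) :=
  (hu.comp_sub_right a).mul_bdd (c := 1)
    (aestronglyMeasurable_const.sub (hu.comp_sub_right b).1)
    (Eventually.of_forall fun _ => w_bd hu hu1 _)

theorem Ph_int0 (a : Rd d) : Integrable (fun x => u (x - a) * (1 - u x)) := by
  simpa using Ph_int hu hu1 a 0

theorem Ph_nonneg (z : Rd d) : 0 ≤ Ph u z :=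
  integral_nonneg fun x => mul_nonneg (hu1 _).1 (sub_nonneg.2 (hu1 x).2)

theorem Ph_eq (z : Rd d) : Ph u z = (∫ x, u x) - conv (fun t => u (-t)) u z := by
  have i1 := hu.comp_sub_right z
  have i2 : Integrable (fun x => u (x - z) * u x) := by
    have := mul_int hu hu1 i1
    simpa only [mul_comm] using this
  rw [← integral_sub_right_eq_self u z, conv]
  simp only [neg_sub]
  rw [← integral_sub i1 i2, Ph]
  simp only [mul_sub, mul_one]

theorem Ph_le (z : Rd d) : Ph u z ≤ ∫ x, u x := by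
  rw [Ph_eq hu hu1]
  have := conv_nonneg (f := fun t => u (-t)) (g := u) (fun t => (hu1 _).1) (fun t => (hu1 _).1) z
  linarith

theorem Ph_bd (z : Rd d) : ‖Ph u z‖ ≤ ∫ x, u x := by
  rw [Real.norm_eq_abs, abs_of_nonneg (Ph_nonneg hu hu1 z)]
  exact Ph_le hu hu1 z

theorem Ph_meas : AEStronglyMeasurable (Ph u) volume := by
  have : Ph u = fun z => (∫ x, u x) - conv (fun t => u (-t)) u z := funext (Ph_eq hu hu1)
  rw [this]
  exact aestronglyMeasurable_const.sub (conv_int hu.comp_neg hu).1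

theorem Ph_neg (z : Rd d) : Ph u (-z) = Ph u z := by
  rw [Ph_eq hu hu1, Ph_eq hu hu1, conv, conv]
  congr 1
  rw [← integral_sub_right_eq_self _ z]
  refine integral_congr_ae (Eventually.of_forall fun y => ?_)
  simp only
  rw [mul_comm]
  congr 2 <;> abel

theorem Ph_add (a b : Rd d) : Ph u (a + b) ≤ Ph u a + Ph u b := by
  have e : Ph u b = ∫ x, u (x - (a + b)) * (1 - u (x - a)) := by
    rw [Ph, ← integral_sub_right_eq_self _ a]
    simp only [sub_sub]
  rw [e, Ph, Ph, ← integral_add (Ph_int0 hu hu1 a) (Ph_int hu hu1 _ _)]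
  refine integral_mono (Ph_int0 hu hu1 _) ((Ph_int0 hu hu1 a).add (Ph_int hu hu1 _ _))
    fun x => ?_
  obtain ⟨a0, a1⟩ := hu1 (x - (a + b))
  obtain ⟨b0, b1⟩ := hu1 (x - a)
  obtain ⟨c0, c1⟩ := hu1 x
  simp only
  nlinarith [mul_nonneg (mul_nonneg b0 (sub_nonneg.2 a1)) (sub_nonneg.2 c1),
    mul_nonneg (mul_nonneg a0 (sub_nonneg.2 b1)) c0,
    mul_nonneg (mul_nonneg a0 b0) (sub_nonneg.2 c1)]

theorem mul_Ph_int {f : Rd d → ℝ} (hf : Integrable f) : Integrable (fun x => f x * Ph u x) :=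
  hf.mul_bdd (Ph_meas hu hu1) (Eventually.of_forall (Ph_bd hu hu1))

theorem fub_w {f : Rd d → ℝ} (hf : Integrable f) :
    ∫ x, (1 - u x) * conv u f x = ∫ y, f y * Ph u y :=
  (fub hu hf (w_meas hu hu1) (w_bd hu hu1)).2

theorem conv_Ph {f : Rd d → ℝ} (hf : Integrable f) (f0 : ∀ x, 0 ≤ f x) :
    (∫ x, f x) * (∫ x, u x * Ph u x) - (∫ x, u x) * ∫ y, f y * Ph u y ≤
      ∫ x, Ph u x * conv u f x := by
  obtain ⟨i1, e1⟩ := fub hu hf (Ph_meas hu hu1) (Ph_bd hu hu1)
  have i2 := hf.mul_const (∫ x, u x * Ph u x)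
  have i3 := (mul_Ph_int hu hu1 hf).const_mul (∫ x, u x)
  rw [e1, ← integral_mul_const, ← integral_const_mul, ← integral_sub i2 i3]
  refine integral_mono (i2.sub i3) i1 fun z => ?_
  have key : (∫ x, u x * Ph u x) - (∫ x, u x) * Ph u z ≤ ∫ x, u (x - z) * Ph u x := by
    have j1 := mul_Ph_int hu hu1 hu
    have j2 := hu.mul_const (Ph u z)
    have j3 := (mul_Ph_int hu hu1 (hu.comp_sub_right z)).comp_add_right z
    rw [← integral_mul_const, ← integral_sub j1 j2,
      ← integral_add_right_eq_self (fun x => u (x - z) * Ph u x) z]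
    refine integral_mono (j1.sub j2) j3 fun p => ?_
    have h1 := Ph_add hu hu1 (p + z) (-z)
    rw [add_neg_cancel_right, Ph_neg hu hu1] at h1
    have h2 := mul_le_mul_of_nonneg_left h1 (hu1 p).1
    simp only [add_sub_cancel_right]
    linarith
  have := mul_le_mul_of_nonneg_left key (f0 z)
  simp only
  linarith

theorem half_lower (e : Rd d) :
    (∫ x in {x | 0 < ⟪e, x⟫}, u x) ^ 2 / 2 ≤ ∫ x, u x * Ph u x := by
  have hm : ∀ t : ℝ, MeasurableSet {x : Rd d | t < ⟪e, x⟫} := fun t =>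
    (isOpen_lt continuous_const (by fun_prop)).measurableSet
  set f : Rd d → ℝ := {x : Rd d | 0 < ⟪e, x⟫}.indicator u with hf
  have fi : Integrable f := hu.indicator (hm 0)
  have f0 : ∀ x, 0 ≤ f x := fun x => Set.indicator_nonneg (fun _ _ => (hu1 _).1) _
  have hs : MeasurableSet {z : Rd d × Rd d | ⟪e, z.2⟫ ≤ ⟪e, z.1⟫} :=
    (isClosed_le (by fun_prop) (by fun_prop)).measurableSet
  let Θ : Rd d × Rd d → ℝ :=
    {z : Rd d × Rd d | ⟪e, z.2⟫ ≤ ⟪e, z.1⟫}.indicator (fun z => f z.1 * f z.2)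
  have ffi : Integrable (fun z : Rd d × Rd d => f z.1 * f z.2) (volume.prod volume) :=
    fi.mul_prod fi
  have Θi : Integrable Θ (volume.prod volume) := ffi.indicator hs
  have s1 : (∫ x, f x) ^ 2 ≤ 2 * ∫ z, Θ z ∂(volume.prod volume) := by
    rw [sq, ← integral_prod_mul, two_mul]
    nth_rewrite 1 [← integral_prod_swap Θ]
    have Θs : Integrable (fun z : Rd d × Rd d => Θ z.swap) (volume.prod volume) := Θi.swap
    rw [← integral_add Θs Θi]
    refine integral_mono ffi (Θs.add Θi) fun z => ?_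
    have p := mul_nonneg (f0 z.1) (f0 z.2)
    simp only [Θ, Set.indicator, Set.mem_setOf_eq, Prod.fst_swap, Prod.snd_swap]
    rcases le_total ⟪e, z.1⟫ ⟪e, z.2⟫ with h | h
    · rw [if_pos h]
      split_ifs <;> nlinarith
    · rw [if_pos h]
      split_ifs <;> nlinarith
  have s2 : ∫ z, Θ z ∂(volume.prod volume) ≤ ∫ x, u x * Ph u x := by
    rw [integral_prod Θ Θi]
    refine integral_mono Θi.integral_prod_left (mul_Ph_int hu hu1 hu) fun q => ?_
    simp only
    by_cases hq : 0 < ⟪e, q⟫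
    · have fq : f q = u q := Set.indicator_of_mem (show q ∈ {x : Rd d | 0 < ⟪e, x⟫} from hq) _
      have gi : Integrable ({x : Rd d | ⟪e, q⟫ < ⟪e, x⟫}.indicator u) := hu.indicator (hm _)
      have e1 : ∀ p, Θ (q, p) = u q * (f p - {x : Rd d | ⟪e, q⟫ < ⟪e, x⟫}.indicator u p) := by
        intro p
        simp only [Θ, Set.indicator, Set.mem_setOf_eq, fq]
        by_cases h : ⟪e, p⟫ ≤ ⟪e, q⟫
        · rw [if_pos h, if_neg (not_lt.2 h), sub_zero]
        · have h' : 0 < ⟪e, p⟫ := hq.trans (not_le.1 h)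
          have : f p = u p := Set.indicator_of_mem (show p ∈ {x : Rd d | 0 < ⟪e, x⟫} from h') _
          rw [if_neg h, if_pos (not_le.1 h), this, sub_self, mul_zero]
      simp only [e1]
      rw [integral_const_mul]
      refine mul_le_mul_of_nonneg_left ?_ (hu1 q).1
      rw [integral_sub fi gi, ← integral_sub_right_eq_self f q,
        ← integral_sub (fi.comp_sub_right q) gi, Ph]
      refine integral_mono ((fi.comp_sub_right q).sub gi) (Ph_int0 hu hu1 q) fun x => ?_
      obtain ⟨a0, a1⟩ := hu1 (x - q)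
      obtain ⟨c0, c1⟩ := hu1 x
      simp only [hf, Set.indicator, Set.mem_setOf_eq, inner_sub_right, sub_pos]
      split_ifs <;> nlinarith
    · have fq : f q = 0 := Set.indicator_of_notMem (show q ∉ {x : Rd d | 0 < ⟪e, x⟫} from hq) _
      have e1 : ∀ p, Θ (q, p) = 0 := by
        intro p
        simp [Θ, Set.indicator, fq]
      simp only [e1, integral_zero]
      exact mul_nonneg (hu1 q).1 (Ph_nonneg hu hu1 q)
  rw [← integral_indicator (hm 0)]
  linarith

theorem Ph_lower (hd : 1 ≤ d) : (∫ x, u x) ^ 2 / 8 ≤ ∫ x, u x * Ph u x := by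
  let e : Rd d := EuclideanSpace.single ⟨0, hd⟩ 1
  have he : ⟪e, e⟫ = 1 := by simp [e]
  have hm : ∀ e : Rd d, MeasurableSet {x : Rd d | 0 < ⟪e, x⟫} := fun e =>
    (isOpen_lt continuous_const (by fun_prop)).measurableSet
  have hnull : ∀ᵐ x : Rd d, ⟪e, x⟫ ≠ 0 := by
    have := Measure.addHaar_submodule (volume : Measure (Rd d)) (LinearMap.ker (innerₛₗ ℝ e))
      (by
        intro h
        have : e ∈ LinearMap.ker (innerₛₗ ℝ e) := by rw [h]; trivial
        rw [LinearMap.mem_ker, innerₛₗ_apply_apply, he] at this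
        exact one_ne_zero this)
    rw [ae_iff]
    convert this using 2
    ext x
    simp
  have hsum : (∫ x in {x | 0 < ⟪e, x⟫}, u x) + (∫ x in {x | 0 < ⟪-e, x⟫}, u x) = ∫ x, u x := by
    rw [← integral_indicator (hm e), ← integral_indicator (hm (-e)),
      ← integral_add (hu.indicator (hm _)) (hu.indicator (hm _))]
    refine integral_congr_ae ?_
    filter_upwards [hnull] with x hx
    simp only [Set.indicator, Set.mem_setOf_eq, inner_neg_left, neg_pos]
    rcases lt_or_gt_of_ne hx with h | h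
    · rw [if_neg (not_lt.2 h.le), if_pos h, zero_add]
    · rw [if_pos h, if_neg (not_lt.2 h.le), add_zero]
  have h1 := half_lower hu hu1 e
  have h2 := half_lower hu hu1 (-e)
  rw [← hsum]
  nlinarith [sq_nonneg ((∫ x in {x | 0 < ⟪e, x⟫}, u x) - (∫ x in {x | 0 < ⟪-e, x⟫}, u x))]

end

end Pool.Agent.H902Z.ME
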