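import Pool.Agent.H902Z.ME.Big2

set_option autoImplicit false

open MeasureTheory Filter Topology
open scoped RealInnerProductSpace

namespace Pool.Agent.H902Z.ME

variable {d : ℕ}

section

variable {u v : Rd d → ℝ} {V : ℝ} (hu : Integrable u) (hu1 : ∀ x, 0 ≤ u x ∧ u x ≤ 1)
  (hv : Integrable v) (hv0 : ∀ x, 0 ≤ v x) (hV : ∀ x, v x ≤ V)

include hu1 hv0 hV in
theorem S_le (x : Rd d) : SS v u x ≤ V := by
  have := hu1 x
  have := hv0 x
  have := hV x
  simp only [SS]
  nlinarith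

include hu hu1 hv in
theorem K_int : Integrable (KK v u) := conv_int hu (SS_int hu hu1 hv)

include hu1 hv0 in
theorem K_nonneg (x : Rd d) : 0 ≤ KK v u x :=
  conv_nonneg (fun t => (hu1 t).1) (SS_nonneg hu1 hv0) x

include hu hu1 hv0 hV in
theorem K_le (x : Rd d) : KK v u x ≤ (∫ y, u y) * V :=
  conv_le hu (fun t => (hu1 t).1) (SS_nonneg hu1 hv0) (S_le hu1 hv0 hV) x

include hu1 hv0 in
theorem uK_nonneg (x : Rd d) : 0 ≤ u x * KK v u x := mul_nonneg (hu1 x).1 (K_nonneg hu1 hv0 x)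

include hu hu1 hv0 hV in
theorem uK_le (x : Rd d) : u x * KK v u x ≤ (∫ y, u y) * V :=
  (mul_le_of_le_one_left (K_nonneg hu1 hv0 x) (hu1 x).2).trans (K_le hu hu1 hv0 hV x)

include hu hu1 hv in
theorem uK_int : Integrable (fun x => u x * KK v u x) := mul_int hu hu1 (K_int hu hu1 hv)

include hu hu1 hv in
theorem L_int : Integrable (LL v u) :=
  (conv_int hu (K_int hu hu1 hv)).sub ((conv_int hu (uK_int hu hu1 hv)).const_mul 2)

include hu hu1 hv in
theorem F_int (ρ : ℝ) : Integrable (bigRHS ρ v u) := by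
  have h1 : Integrable (fun x => -2 * ρ * KK v u x + ρ ^ 2 * LL v u x) :=
    ((K_int hu hu1 hv).const_mul _).add ((L_int hu hu1 hv).const_mul _)
  exact (SS_int hu hu1 hv).add (h1.bdd_mul (c := 1) (w_meas hu hu1)
    (Eventually.of_forall (w_bd hu hu1)))

include hu hu1 hv in
theorem T_big (ρ : ℝ) (k : Rd d) : T (bigRHS ρ v u) k =
    T (SS v u) k * (1 - ρ * T u k) ^ 2 + 2 * ρ * T (fun x => u x * KK v u x) k * (1 - ρ * T u k)
      - ρ ^ 2 * T (fun x => u x * LL v u x) k := by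
  have iS := SS_int hu hu1 hv
  have iK := K_int hu hu1 hv
  have iJ := uK_int hu hu1 hv
  have iM := conv_int hu iK
  have iN := conv_int hu iJ
  have iL := mul_int hu hu1 (L_int hu hu1 hv)
  have j1 : Integrable (fun x => SS v u x - 2 * ρ * KK v u x) := iS.sub (iK.const_mul _)
  have j2 : Integrable (fun x => SS v u x - 2 * ρ * KK v u x + 2 * ρ * (u x * KK v u x)) :=
    j1.add (iJ.const_mul _)
  have j3 : Integrable (fun x => SS v u x - 2 * ρ * KK v u x + 2 * ρ * (u x * KK v u x) +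
      ρ ^ 2 * conv u (KK v u) x) := j2.add (iM.const_mul _)
  have j4 : Integrable (fun x => SS v u x - 2 * ρ * KK v u x + 2 * ρ * (u x * KK v u x) +
      ρ ^ 2 * conv u (KK v u) x - 2 * ρ ^ 2 * conv u (fun y => u y * KK v u y) x) :=
    j3.sub (iN.const_mul _)
  have e : bigRHS ρ v u = fun x => SS v u x - 2 * ρ * KK v u x + 2 * ρ * (u x * KK v u x) +
      ρ ^ 2 * conv u (KK v u) x - 2 * ρ ^ 2 * conv u (fun y => u y * KK v u y) x -
      ρ ^ 2 * (u x * LL v u x) := by
    funext x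
    simp only [bigRHS, LL]
    ring
  rw [e, T_sub j4 (iL.const_mul _), T_sub j3 (iN.const_mul _), T_add j2 (iM.const_mul _),
    T_add j1 (iJ.const_mul _), T_sub iS (iK.const_mul _), T_mul, T_mul, T_mul, T_mul, T_mul,
    T_conv hu iK, T_conv hu iJ, KK, T_conv hu iS]
  push_cast
  ring

include hu hu1 hv0 hV in
theorem L_abs (x : Rd d) :
    |LL v u x| ≤ conv u (KK v u) x + 2 * conv u (fun y => u y * KK v u y) x := by
  have h1 := conv_nonneg (f := u) (fun t => (hu1 t).1) (K_nonneg hu1 hv0) x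
  have h2 := conv_nonneg (f := u) (fun t => (hu1 t).1) (uK_nonneg hu1 hv0) x
  rw [LL, abs_le]
  constructor <;> linarith

include hu hu1 hv hv0 hV in
theorem tail_step {m ρ : ℝ} (hm : 0 < m) (hρ : 0 < ρ) (hs : IsSolution m u (bigRHS ρ v u))
    (hheavy : ∀ C : ℝ, ∃ k, C * ‖k‖ ^ 2 < D v k) (hne : ρ * ∫ x, u x ≠ 1) :
    ρ * ((∫ x, u x) * (∫ x, SS v u x) - ∫ x, u x * KK v u x) ≤ ∫ x, SS v u x := by
  by_contra hcon
  push Not at hcon
  have u0 : ∀ x, 0 ≤ u x := fun x => (hu1 x).1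
  have iS := SS_int hu hu1 hv
  have S0 := SS_nonneg hu1 hv0
  have iK := K_int hu hu1 hv
  have iJ := uK_int hu hu1 hv
  have K0 := K_nonneg hu1 hv0
  have J0 := uK_nonneg hu1 hv0
  have iM := conv_int hu iK
  have iN := conv_int hu iJ
  have iL := mul_int hu hu1 (L_int hu hu1 hv)
  have M0 := conv_nonneg (f := u) u0 K0
  have N0 := conv_nonneg (f := u) u0 J0
  set U := ∫ x, u x with hU
  set σ := ∫ x, SS v u x with hσ
  set j := ∫ x, u x * KK v u x with hj
  have U0 : 0 ≤ U := integral_nonneg u0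
  have σ0 : 0 ≤ σ := integral_nonneg S0
  have V0 : 0 ≤ V := (hv0 0).trans (hV 0)
  set c := 1 - ρ * U with hc
  have c0 : 0 < c ^ 2 := by
    have : c ≠ 0 := fun h => hne (by linarith)
    positivity
  set A := 2 * ρ * (ρ * (U * σ - j) - σ) with hA
  have A0 : 0 < A := by
    have : 0 < ρ * (U * σ - j) - σ := by linarith
    positivity
  let P : Rd d → ℝ := fun k => D u k + D (SS v u) k
  have Du := D_nonneg u0
  have DS := D_nonneg S0
  have P0 : ∀ k, 0 ≤ P k := fun k => add_nonneg (Du k) (DS k)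
  have toP : ∀ f, Sm (D u) f → Sm P f := fun f hf =>
    Sm.of_le P0 zero_le_one (fun k => by simp only [P]; linarith [DS k]) hf
  have dK : Dec (KK v u) := conv_dec hu iS u0 S0 (fun x => (hu1 x).2) (S_le hu1 hv0 hV)
  have dM : Dec (conv u (KK v u)) := conv_dec hu iK u0 K0 (fun x => (hu1 x).2) (K_le hu hu1 hv0 hV)
  have dN : Dec (conv u (fun y => u y * KK v u y)) :=
    conv_dec hu iJ u0 J0 (fun x => (hu1 x).2) (uK_le hu hu1 hv0 hV)
  have s1 : Sm P (fun k => ‖T u 0 - T u k‖ ^ 2) := toP _ (lemmaA hu u0)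
  have s2 : Sm P (fun k => ‖T (SS v u) 0 - T (SS v u) k‖ ^ 2) :=
    Sm.of_le P0 zero_le_one (fun k => by simp only [P]; linarith [Du k]) (lemmaA iS S0)
  have s4 : Sm P (D (fun x => u x * KK v u x)) :=
    toP _ (lemmaB hu u0 K0 (K_le hu hu1 hv0 hV) dK)
  have s3 : Sm P (fun k => ‖T (fun x => u x * KK v u x) 0 - T (fun x => u x * KK v u x) k‖ ^ 2) := by
    refine Sm.of_le P0 (c := U * V) (by positivity) (fun k => ?_) (lemmaA iJ J0)
    have h1 := abs_D_le (f := fun x => u x * KK v u x) (g := fun x => U * V * u x)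
      (hu.const_mul _) (fun x => by
        rw [abs_of_nonneg (J0 x), mul_comm]
        exact mul_le_mul_of_nonneg_right (K_le hu hu1 hv0 hV x) (u0 x)) k
    have h2 : D (fun x => U * V * u x) k = U * V * D u k := by
      simp only [D, mul_assoc]
      rw [integral_const_mul, integral_const_mul]
    have h3 := le_abs_self (D (fun x => u x * KK v u x) k)
    have h4 : 0 ≤ U * V * D (SS v u) k := mul_nonneg (by positivity) (DS k)
    simp only [P]
    linarith
  have s5 : Sm P (D (fun x => u x * conv u (KK v u) x)) :=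
    toP _ (lemmaB hu u0 M0 (conv_le hu u0 K0 (K_le hu hu1 hv0 hV)) dM)
  have s6 : Sm P (D (fun x => u x * conv u (fun y => u y * KK v u y) x)) :=
    toP _ (lemmaB hu u0 N0 (conv_le hu u0 J0 (uK_le hu hu1 hv0 hV)) dN)
  have sAll := (((((s1.mul P0 (c := 3 * σ * ρ ^ 2 + |c| * ρ + ρ ^ 2) (by positivity)).add
    (s2.mul P0 (c := |c| * ρ) (by positivity))).add (s3.mul P0 (c := ρ ^ 2) (by positivity))).add
    (s4.mul P0 (c := 2 * ρ * |c|) (by positivity))).add
    (s5.mul P0 (c := ρ ^ 2) (by positivity))).add (s6.mul P0 (c := 2 * ρ ^ 2) (by positivity))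
  obtain ⟨C, hC⟩ := sAll (min A (c ^ 2) / 2) (by positivity)
  have μ0 : 0 < min A (c ^ 2) := lt_min A0 c0
  have main : ∀ k, min A (c ^ 2) / 2 * P k ≤ (U / m + C) * ‖k‖ ^ 2 := by
    intro k
    have hCk := hC k
    have e0 := weak_T m u _ (F_int hu hu1 hv ρ) hs 0
    have ek := weak_T m u _ (F_int hu hu1 hv ρ) hs k
    rw [T_big hu hu1 hv] at e0 ek
    have z0 : ((‖(0 : Rd d)‖ ^ 2 / m : ℝ) : ℂ) = 0 := by simp
    rw [z0, zero_mul] at e0
    have dL : |D (fun x => u x * LL v u x) k| ≤ D (fun x => u x * conv u (KK v u) x) k +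
        2 * D (fun x => u x * conv u (fun y => u y * KK v u y) x) k := by
      have i1 := mul_int hu hu1 iM
      have i2 := mul_int hu hu1 iN
      have h1 := abs_D_le (f := fun x => u x * LL v u x)
        (g := fun x => u x * conv u (KK v u) x + 2 * (u x * conv u (fun y => u y * KK v u y) x))
        (i1.add (i2.const_mul 2)) (fun x => by
          rw [abs_mul, abs_of_nonneg (u0 x)]
          have := mul_le_mul_of_nonneg_left (L_abs hu hu1 hv0 hV x) (u0 x)
          linarith) k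
      refine h1.trans (le_of_eq ?_)
      rw [D, D, D, ← integral_const_mul, ← integral_add (int_D i1 k) ((int_D i2 k).const_mul 2)]
      refine integral_congr_ae (Eventually.of_forall fun x => ?_)
      simp only
      ring
    have d1 := D_eq hu k
    have d2 := D_eq iS k
    have d3 := D_eq iJ k
    have d4 := D_eq iL k
    have nβ : ‖T (SS v u) 0 - T (SS v u) k‖ ≤ 2 * σ := by
      have := norm_sub_le (T (SS v u) 0) (T (SS v u) k)
      have := norm_T_le' iS S0 0
      have := norm_T_le' iS S0 k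
      linarith
    have nu : ‖T u k‖ ≤ U := norm_T_le' hu u0 k
    have t1 : T u 0 = (U : ℂ) := T_zero u
    have t2 : T (SS v u) 0 = (σ : ℂ) := T_zero _
    have t3 : T (fun x => u x * KK v u x) 0 = (j : ℂ) := T_zero _
    set α := T u 0 - T u k with hα
    set β := T (SS v u) 0 - T (SS v u) k with hβ
    set γ := T (fun x => u x * KK v u x) 0 - T (fun x => u x * KK v u x) k with hγ
    set lam := T (fun x => u x * LL v u x) 0 - T (fun x => u x * LL v u x) k with hlam
    set Z : ℂ := -(σ * ρ ^ 2 : ℝ) * α ^ 2 + (2 * c * ρ : ℝ) * (α * β) + (ρ ^ 2 : ℝ) * (α ^ 2 * β) +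
      (2 * ρ ^ 2 : ℝ) * (α * γ) with hZ
    have id1 : -(((‖k‖ ^ 2 / m : ℝ) : ℂ) * T u k) = (A : ℝ) * α + (c ^ 2 : ℝ) * β + Z +
        (2 * ρ * c : ℝ) * γ - (ρ ^ 2 : ℝ) * lam := by
      have a1 : T u k = U - α := by rw [hα, t1]; ring
      have a2 : T (SS v u) k = σ - β := by rw [hβ, t2]; ring
      have a3 : T (fun x => u x * KK v u x) k = j - γ := by rw [hγ, t3]; ring
      have a4 : T (fun x => u x * LL v u x) k = T (fun x => u x * LL v u x) 0 - lam := by
        rw [hlam]; ring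
      rw [ek, a1, a2, a3, a4, hZ, hA, hc]
      rw [t1, t2, t3] at e0
      push_cast
      linear_combination e0
    have id2 := congrArg Complex.re id1
    simp only [Complex.neg_re, Complex.add_re, Complex.sub_re, Complex.re_ofReal_mul, ← d1, ← d2,
      ← d3, ← d4] at id2
    have nα := norm_nonneg α
    have nβ0 := norm_nonneg β
    have nγ := norm_nonneg γ
    have nZ : ‖Z‖ ≤ σ * ρ ^ 2 * ‖α‖ ^ 2 + 2 * |c| * ρ * (‖α‖ * ‖β‖) + ρ ^ 2 * (‖α‖ ^ 2 * ‖β‖) +
        2 * ρ ^ 2 * (‖α‖ * ‖γ‖) := by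
      rw [hZ]
      refine (norm_add_le _ _).trans (add_le_add ((norm_add_le _ _).trans (add_le_add
        ((norm_add_le _ _).trans (add_le_add ?_ ?_)) ?_)) ?_) <;>
      simp [abs_of_nonneg σ0, abs_of_pos hρ]
    have b1 : 2 * (‖α‖ * ‖β‖) ≤ ‖α‖ ^ 2 + ‖β‖ ^ 2 := by nlinarith [sq_nonneg (‖α‖ - ‖β‖)]
    have b2 : 2 * (‖α‖ * ‖γ‖) ≤ ‖α‖ ^ 2 + ‖γ‖ ^ 2 := by nlinarith [sq_nonneg (‖α‖ - ‖γ‖)]
    have b3 : ‖α‖ ^ 2 * ‖β‖ ≤ ‖α‖ ^ 2 * (2 * σ) := by gcongr
    have c1 := mul_le_mul_of_nonneg_left b1 (show 0 ≤ |c| * ρ by positivity)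
    have c2 := mul_le_mul_of_nonneg_left b2 (show 0 ≤ ρ ^ 2 by positivity)
    have c3 := mul_le_mul_of_nonneg_left b3 (show 0 ≤ ρ ^ 2 by positivity)
    have zr := (abs_le.1 (Complex.abs_re_le_norm Z)).1
    have ur : -(T u k).re ≤ U := by
      have := (abs_le.1 (Complex.abs_re_le_norm (T u k))).1
      linarith
    have c4 := mul_le_mul_of_nonneg_left ur (show 0 ≤ ‖k‖ ^ 2 / m by positivity)
    have DJ := D_nonneg J0 k
    have c5 : -(2 * ρ * |c| * D (fun x => u x * KK v u x) k) ≤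
        2 * ρ * c * D (fun x => u x * KK v u x) k := by
      have := mul_le_mul_of_nonneg_right (neg_abs_le c) (mul_nonneg hρ.le DJ)
      linarith
    have c6 := mul_le_mul_of_nonneg_left ((le_abs_self _).trans dL) (show 0 ≤ ρ ^ 2 by positivity)
    have c7 := mul_le_mul_of_nonneg_right (min_le_left A (c ^ 2)) (Du k)
    have c8 := mul_le_mul_of_nonneg_right (min_le_right A (c ^ 2)) (DS k)
    have c9 : ‖k‖ ^ 2 / m * U = U / m * ‖k‖ ^ 2 := by ring
    simp only [P] at hCk ⊢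
    linarith
  obtain ⟨k, hk⟩ := hheavy ((V + 1) * ((U / m + C) / (min A (c ^ 2) / 2)))
  have h1 : P k ≤ (U / m + C) / (min A (c ^ 2) / 2) * ‖k‖ ^ 2 := by
    rw [div_mul_eq_mul_div, le_div_iff₀ (by positivity), mul_comm]
    exact main k
  have h2 : D v k ≤ (V + 1) * P k := by
    have i1 : Integrable (fun x => V * u x + SS v u x) := (hu.const_mul V).add iS
    have h3 := abs_D_le (f := v) (g := fun x => V * u x + SS v u x) i1 (fun x => by
      rw [abs_of_nonneg (hv0 x)]
      have := mul_le_mul_of_nonneg_left (hV x) (u0 x)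
      simp only [SS]
      linarith) k
    have h4 : D (fun x => V * u x + SS v u x) k = V * D u k + D (SS v u) k := by
      rw [D, D, D, ← integral_const_mul, ← integral_add ((int_D hu k).const_mul V) (int_D iS k)]
      refine integral_congr_ae (Eventually.of_forall fun x => ?_)
      simp only
      ring
    have h5 := le_abs_self (D v k)
    have := mul_nonneg V0 (DS k)
    have := Du k
    simp only [P]
    linarith
  have h3 := mul_le_mul_of_nonneg_left h1 (show 0 ≤ V + 1 by linarith)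
  linarith

end

end Pool.Agent.H902Z.ME
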