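import Pool.Agent.H902Z.ME.Big3

set_option autoImplicit false

open MeasureTheory Filter Topology
open scoped RealInnerProductSpace

namespace Pool.Agent.H902Z.ME

variable {d : ℕ}

section

variable {u v : Rd d → ℝ} {V : ℝ} (hu : Integrable u) (hu1 : ∀ x, 0 ≤ u x ∧ u x ≤ 1)
  (hv : Integrable v) (hv0 : ∀ x, 0 ≤ v x) (hV : ∀ x, v x ≤ V)

include hu hu1 hv hv0 hV in
theorem apriori (hd : 1 ≤ d) {m ρ : ℝ} (hm : 0 < m) (hρ : 0 < ρ)
    (hs : IsSolution m u (bigRHS ρ v u))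
    (hheavy : ∀ C : ℝ, ∃ k, C * ‖k‖ ^ 2 < D v k) : ρ * ∫ x, u x ≤ 25 := by
  by_cases hne : ρ * ∫ x, u x = 1
  · rw [hne]
    norm_num
  have hX := tail_step hu hu1 hv hv0 hV hm hρ hs hheavy hne
  have u0 : ∀ x, 0 ≤ u x := fun x => (hu1 x).1
  have iS := SS_int hu hu1 hv
  have S0 := SS_nonneg hu1 hv0
  have iK := K_int hu hu1 hv
  have iJ := uK_int hu hu1 hv
  have K0 := K_nonneg hu1 hv0
  have J0 := uK_nonneg hu1 hv0
  have iM := conv_int hu iK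
  have iN := conv_int hu iJ
  have iL := L_int hu hu1 hv
  have σ0 : 0 ≤ ∫ x, SS v u x := integral_nonneg S0
  have U0 : 0 ≤ ∫ x, u x := integral_nonneg u0
  rcases σ0.eq_or_lt with hσ | hσ
  · have hS : SS v u =ᵐ[volume] 0 := (integral_eq_zero_iff_of_nonneg S0 iS).1 hσ.symm
    have hK : KK v u = fun _ => 0 := by
      funext x
      rw [KK, conv, ← integral_zero (Rd d) ℝ (μ := volume)]
      refine integral_congr_ae ?_
      filter_upwards [hS] with y hy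
      simp [hy]
    have hF : bigRHS ρ v u = SS v u := by
      funext x
      simp [bigRHS, LL, hK, conv]
    have hz : ∫ x, u x = 0 := by
      refine int_zero_of_T hd hu fun k hk => ?_
      have := weak_T m u _ (F_int hu hu1 hv ρ) hs k
      rw [hF, T_congr hS] at this
      have h2 : T (0 : Rd d → ℝ) k = 0 := by simp [T]
      rw [h2] at this
      refine (mul_eq_zero.1 this).resolve_left ?_
      have : 0 < ‖k‖ ^ 2 / m := by
        have := norm_pos_iff.2 hk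
        positivity
      exact_mod_cast this.ne'
    rw [hz]
    norm_num
  have wm := w_meas hu hu1
  have wb : ∀ᵐ x, ‖1 - u x‖ ≤ 1 := Eventually.of_forall (w_bd hu hu1)
  have iwK : Integrable (fun x => (1 - u x) * KK v u x) := iK.bdd_mul wm wb
  have iwL : Integrable (fun x => (1 - u x) * LL v u x) := iL.bdd_mul wm wb
  have iwM : Integrable (fun x => (1 - u x) * conv u (KK v u) x) := iM.bdd_mul wm wb
  have iwN : Integrable (fun x => (1 - u x) * conv u (fun y => u y * KK v u y) x) :=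
    iN.bdd_mul wm wb
  have eX : ∫ x, (1 - u x) * KK v u x =
      (∫ x, u x) * (∫ x, SS v u x) - ∫ x, u x * KK v u x := by
    rw [← int_conv hu iS]
    simp only [sub_mul, one_mul]
    exact integral_sub iK iJ
  have eX2 : ∫ x, (1 - u x) * KK v u x = ∫ y, SS v u y * Ph u y := fub_w hu hu1 iS
  have e0 : 0 = (∫ x, SS v u x) - 2 * ρ * (∫ x, (1 - u x) * KK v u x) +
      ρ ^ 2 * ∫ x, (1 - u x) * LL v u x := by
    have := weak_T m u _ (F_int hu hu1 hv ρ) hs 0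
    have z0 : ((‖(0 : Rd d)‖ ^ 2 / m : ℝ) : ℂ) = 0 := by simp
    rw [z0, zero_mul, T_zero] at this
    have h2 : ∫ x, bigRHS ρ v u x = 0 := by exact_mod_cast this.symm
    have j1 : Integrable (fun x => SS v u x - 2 * ρ * ((1 - u x) * KK v u x)) :=
      iS.sub (iwK.const_mul _)
    rw [← h2, ← integral_const_mul, ← integral_const_mul, ← integral_sub iS (iwK.const_mul _),
      ← integral_add j1 (iwL.const_mul _)]
    refine integral_congr_ae (Eventually.of_forall fun x => ?_)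
    simp only [bigRHS]
    ring
  have eL : ∫ x, (1 - u x) * LL v u x =
      (∫ y, KK v u y * Ph u y) - 2 * ∫ y, u y * KK v u y * Ph u y := by
    rw [← fub_w hu hu1 iK, ← fub_w hu hu1 iJ, ← integral_const_mul,
      ← integral_sub iwM (iwN.const_mul _)]
    refine integral_congr_ae (Eventually.of_forall fun x => ?_)
    simp only [LL]
    ring
  have eW : (∫ y, KK v u y * Ph u y) - (∫ y, u y * KK v u y * Ph u y) ≤
      (∫ x, u x) * ∫ x, (1 - u x) * KK v u x := by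
    have i1 := mul_Ph_int hu hu1 iK
    have i2 := mul_Ph_int hu hu1 iJ
    rw [← integral_sub i1 i2, ← integral_const_mul]
    refine integral_mono (i1.sub i2) (iwK.const_mul _) fun y => ?_
    have := mul_le_mul_of_nonneg_left (Ph_le hu hu1 y)
      (mul_nonneg (sub_nonneg.2 (hu1 y).2) (K0 y))
    simp only
    linarith
  have eC := conv_Ph hu hu1 iS S0
  have eC2 : ∫ x, Ph u x * conv u (SS v u) x = ∫ y, KK v u y * Ph u y := by
    simp only [KK, mul_comm]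
  have eI := Ph_lower hu hu1 hd
  rw [← eX] at hX
  rw [eC2, ← eX2] at eC
  have X0 : 0 ≤ ∫ x, (1 - u x) * KK v u x :=
    integral_nonneg fun x => mul_nonneg (sub_nonneg.2 (hu1 x).2) (K0 x)
  set U := ∫ x, u x
  set σ := ∫ x, SS v u x
  set X := ∫ x, (1 - u x) * KK v u x
  set I := ∫ x, u x * Ph u x
  set Y := ∫ y, KK v u y * Ph u y
  set Y' := ∫ y, u y * KK v u y * Ph u y
  rw [eL] at e0
  have f1 : ρ ^ 2 * (σ * (U ^ 2 / 8)) ≤ ρ ^ 2 * (σ * I) := by gcongr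
  have f2 := mul_le_mul_of_nonneg_left eC (show 0 ≤ ρ ^ 2 by positivity)
  have f3 := mul_le_mul_of_nonneg_left eW (show 0 ≤ ρ ^ 2 by positivity)
  have f4 := mul_le_mul_of_nonneg_left hX (show 0 ≤ ρ * U by positivity)
  have f5 : 0 ≤ ρ * X := by positivity
  have f6 : σ * ((ρ * U) ^ 2 / 8) ≤ σ * (3 * (ρ * U) + 1) := by nlinarith
  have f7 := le_of_mul_le_mul_left f6 hσ
  nlinarith

include hu hu1 hv hv0 hV in
theorem err_bound {ρ : ℝ} (hρ : 0 < ρ) (hy : ρ * ∫ x, u x ≤ 25) (k : Rd d) :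
    ρ * ‖2 * ρ * T (fun x => u x * KK v u x) k * (1 - ρ * T u k)
      - ρ ^ 2 * T (fun x => u x * LL v u x) k‖ ≤ 80000 * V := by
  have u0 : ∀ x, 0 ≤ u x := fun x => (hu1 x).1
  have U0 : 0 ≤ ∫ x, u x := integral_nonneg u0
  have V0 : 0 ≤ V := (hv0 0).trans (hV 0)
  have K0 := K_nonneg hu1 hv0
  have J0 := uK_nonneg hu1 hv0
  have h1 : ‖T (fun x => u x * KK v u x) k‖ ≤ (∫ x, u x) * V * ∫ x, u x := by
    rw [← integral_const_mul]
    refine norm_T_le (hu.const_mul _) (fun x => ?_) k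
    rw [abs_of_nonneg (J0 x), mul_comm]
    exact mul_le_mul_of_nonneg_right (K_le hu hu1 hv0 hV x) (u0 x)
  have h2 : ‖T (fun x => u x * LL v u x) k‖ ≤ 3 * ((∫ x, u x) * ((∫ x, u x) * V)) * ∫ x, u x := by
    rw [← integral_const_mul]
    refine norm_T_le (hu.const_mul _) (fun x => ?_) k
    rw [abs_mul, abs_of_nonneg (u0 x), mul_comm]
    refine mul_le_mul_of_nonneg_right ((L_abs hu hu1 hv0 hV x).trans ?_) (u0 x)
    have := conv_le hu u0 K0 (K_le hu hu1 hv0 hV) x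
    have := conv_le hu u0 J0 (uK_le hu hu1 hv0 hV) x
    linarith
  have h3 : ‖1 - (ρ : ℂ) * T u k‖ ≤ 1 + ρ * ∫ x, u x := by
    refine (norm_sub_le _ _).trans ?_
    rw [norm_one, norm_mul, Complex.norm_real, Real.norm_eq_abs, abs_of_pos hρ]
    have := norm_T_le' hu u0 k
    gcongr
  set U := ∫ x, u x
  have h4 : ‖2 * ρ * T (fun x => u x * KK v u x) k * (1 - ρ * T u k)
      - ρ ^ 2 * T (fun x => u x * LL v u x) k‖ ≤
      2 * ρ * (U * V * U) * (1 + ρ * U) + ρ ^ 2 * (3 * (U * (U * V)) * U) := by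
    refine (norm_sub_le _ _).trans (add_le_add ?_ ?_)
    · rw [norm_mul, norm_mul, norm_mul, Complex.norm_real, Real.norm_eq_abs, abs_of_pos hρ,
        Complex.norm_ofNat]
      gcongr
    · rw [norm_mul, norm_pow, Complex.norm_real, Real.norm_eq_abs, abs_of_pos hρ]
      gcongr
  have y0 : 0 ≤ ρ * U := by positivity
  calc _ ≤ ρ * (2 * ρ * (U * V * U) * (1 + ρ * U) + ρ ^ 2 * (3 * (U * (U * V)) * U)) := by gcongr
    _ = (2 * (ρ * U) ^ 2 * (1 + ρ * U) + 3 * (ρ * U) ^ 3) * V := by ring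
    _ ≤ (2 * 25 ^ 2 * (1 + 25) + 3 * 25 ^ 3) * V := by gcongr
    _ ≤ 80000 * V := by gcongr; norm_num

end

theorem final_alg {a b δ κ ρ r0 r1 r2 y2 s0 s1 s2 : ℝ} (ha : 0 < a) (hb : 0 ≤ b) (hρ : 0 < ρ)
    (hκ : 0 < κ) (hab : 4000 * b < a) (hδ0 : 0 ≤ δ) (hδ : 4000 * δ ≤ a) (hκρ : 8000 * κ ≤ ρ * a)
    (r00 : 0 ≤ r0) (r10 : 0 ≤ r1) (r20 : 0 ≤ r2)
    (h0 : a - δ ≤ s0) (h1 : a - δ ≤ s1) (h2 : s2 ≤ b + δ)
    (e0 : ρ * (s0 * r0 ^ 2) ≤ κ) (e1 : ρ * (s1 * r1 ^ 2) ≤ 26 * κ)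
    (e2 : 4 * κ * y2 ≤ ρ * (s2 * r2 ^ 2) + κ) (hr : r2 ≤ 5 * r0 + 4 * r1) (hy : 1 - r2 ≤ y2) :
    False := by
  have a' : a / 2 ≤ a - δ := by linarith
  have f0 : ρ * (a / 2 * r0 ^ 2) ≤ κ := le_trans (by gcongr; linarith) e0
  have f1 : ρ * (a / 2 * r1 ^ 2) ≤ 26 * κ := le_trans (by gcongr; linarith) e1
  have f2 : r2 ^ 2 ≤ 50 * r0 ^ 2 + 32 * r1 ^ 2 := by
    have : r2 ^ 2 ≤ (5 * r0 + 4 * r1) ^ 2 := by gcongr
    nlinarith [sq_nonneg (5 * r0 - 4 * r1)]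
  have f3 : ρ * (a / 2) * r2 ^ 2 ≤ 882 * κ := by
    have := mul_le_mul_of_nonneg_left f2 (show 0 ≤ ρ * (a / 2) by positivity)
    nlinarith
  have f4 : r2 ^ 2 ≤ 1 / 4 := by
    have : ρ * (a / 2) * r2 ^ 2 ≤ ρ * (a / 2) * (1 / 4) := by nlinarith
    exact le_of_mul_le_mul_left this (by positivity)
  have f5 : r2 ≤ 1 / 2 := by nlinarith
  have f6 : κ ≤ ρ * ((b + δ) * r2 ^ 2) := by
    have : ρ * (s2 * r2 ^ 2) ≤ ρ * ((b + δ) * r2 ^ 2) := by gcongr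
    nlinarith
  have f7 : ρ * ((b + δ) * r2 ^ 2) ≤ ρ * (a / 2000 * r2 ^ 2) := by gcongr; linarith
  nlinarith

theorem big_none (hd : 1 ≤ d) {m : ℝ} (hm : 0 < m) {v : Rd d → ℝ} {V : ℝ} (hv : Integrable v)
    (hv0 : ∀ x, 0 ≤ v x) (hV : ∀ x, v x ≤ V) (hheavy : ∀ C : ℝ, ∃ k, C * ‖k‖ ^ 2 < D v k)
    (k : Rd d) (hk1 : 80000 * V ≤ ‖k‖ ^ 2 / m) (hk : 4000 * ‖T v ((2 : ℝ) • k)‖ < ‖T v k‖) :
    ∃ ρ0 : ℝ, 0 < ρ0 ∧ ∀ ρ, ρ0 ≤ ρ → ¬ ∃ u, IsSolution m u (bigRHS ρ v u) := by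
  set a := ‖T v k‖ with ha
  set b := ‖T v ((2 : ℝ) • k)‖ with hb
  have hb0 : 0 ≤ b := norm_nonneg _
  have a0 : 0 < a := by linarith
  have V0 : 0 ≤ V := (hv0 0).trans (hV 0)
  have hk0 : k ≠ 0 := by
    rintro rfl
    rw [smul_zero] at hb
    rw [hb, ← ha] at hk
    linarith
  have hkn : 0 < ‖k‖ := norm_pos_iff.2 hk0
  set κ := ‖k‖ ^ 2 / m with hκ
  have hκ0 : 0 < κ := by positivity
  refine ⟨100000 * V / a + 8000 * κ / a, by positivity, ?_⟩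
  rintro ρ hρ ⟨u, hs⟩
  have p1 : 0 ≤ 100000 * V / a := by positivity
  have p2 : 0 < 8000 * κ / a := by positivity
  have hρ0 : 0 < ρ := by linarith
  have hρ1 : 100000 * V ≤ ρ * a := by
    rw [← div_le_iff₀ a0]
    linarith
  have hρ2 : 8000 * κ ≤ ρ * a := by
    rw [← div_le_iff₀ a0]
    linarith
  have hu := hs.1
  have hu1 := hs.2.1
  have u0 : ∀ x, 0 ≤ u x := fun x => (hu1 x).1
  have hS := SS_int hu hu1 hv
  have hy := apriori hu hu1 hv hv0 hV hd hm hρ0 hs hheavy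
  have huv0 : 0 ≤ ∫ x, u x * v x := integral_nonneg fun x => mul_nonneg (u0 x) (hv0 x)
  have huv : 4000 * ∫ x, u x * v x ≤ a := by
    have h1 : ∫ x, u x * v x ≤ (∫ x, u x) * V := by
      rw [← integral_mul_const]
      exact integral_mono (mul_int hu hu1 hv) (hu.mul_const V) fun x =>
        mul_le_mul_of_nonneg_left (hV x) (u0 x)
    have h2 := mul_le_mul_of_nonneg_right hy V0
    have h3 := mul_le_mul_of_nonneg_left h1 hρ0.le
    have : ρ * (4000 * ∫ x, u x * v x) ≤ ρ * a := by nlinarith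
    exact le_of_mul_le_mul_left this hρ0
  have s1 : a - (∫ x, u x * v x) ≤ ‖T (SS v u) k‖ := by
    have h1 := T_SS hu hu1 hv hv0 k
    have := norm_sub_norm_le (T v k) (T (SS v u) k)
    rw [norm_sub_rev] at this
    linarith
  have s0 : a - (∫ x, u x * v x) ≤ ‖T (SS v u) 0‖ := by
    refine s1.trans ((norm_T_le' hS (SS_nonneg hu1 hv0) k).trans ?_)
    rw [T_zero, Complex.norm_real]
    exact le_abs_self _
  have s2 : ‖T (SS v u) ((2 : ℝ) • k)‖ ≤ b + ∫ x, u x * v x := by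
    have h1 := T_SS hu hu1 hv hv0 ((2 : ℝ) • k)
    have := norm_sub_norm_le (T (SS v u) ((2 : ℝ) • k)) (T v ((2 : ℝ) • k))
    linarith
  have hyk : ∀ k', ‖(ρ : ℂ) * T u k'‖ ≤ 25 := by
    intro k'
    rw [norm_mul, Complex.norm_real, Real.norm_eq_abs, abs_of_pos hρ0]
    exact (mul_le_mul_of_nonneg_left (norm_T_le' hu u0 k') hρ0.le).trans hy
  have eqn : ∀ k', |‖k'‖ ^ 2 / m * ‖(ρ : ℂ) * T u k'‖ -
      ρ * (‖T (SS v u) k'‖ * ‖1 - (ρ : ℂ) * T u k'‖ ^ 2)| ≤ κ := by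
    intro k'
    have e := weak_T m u _ (F_int hu hu1 hv ρ) hs k'
    rw [T_big hu hu1 hv, add_sub_assoc] at e
    have er := err_bound hu hu1 hv hv0 hV hρ0 hy k'
    have h1 := abs_norm_sub_norm_le (((‖k'‖ ^ 2 / m : ℝ) : ℂ) * T u k')
      (T (SS v u) k' * (1 - ρ * T u k') ^ 2)
    nth_rewrite 2 [e] at h1
    rw [add_sub_cancel_left] at h1
    have h2 := (mul_le_mul_of_nonneg_left h1 hρ0.le).trans (er.trans hk1)
    simp only [norm_mul, norm_pow, Complex.norm_real, Real.norm_eq_abs] at h2 ⊢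
    rw [abs_of_nonneg (show 0 ≤ ‖k'‖ ^ 2 / m by positivity)] at h2
    rw [abs_of_pos hρ0]
    refine le_trans (le_of_eq ?_) h2
    rw [← abs_of_pos hρ0, ← abs_mul, abs_of_pos hρ0]
    congr 1
    ring
  have e0 := (abs_le.1 (eqn 0)).1
  have e1 := (abs_le.1 (eqn k)).1
  have e2 := (abs_le.1 (eqn ((2 : ℝ) • k))).2
  have hk2 : ‖(2 : ℝ) • k‖ ^ 2 / m = 4 * κ := by
    rw [norm_smul, hκ]
    simp only [Real.norm_ofNat]
    ring
  rw [hk2] at e2
  rw [← hκ] at e1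
  have z0 : ‖(0 : Rd d)‖ ^ 2 / m = 0 := by simp
  rw [z0] at e0
  refine final_alg (r0 := ‖1 - (ρ : ℂ) * T u 0‖) (r1 := ‖1 - (ρ : ℂ) * T u k‖)
    (r2 := ‖1 - (ρ : ℂ) * T u ((2 : ℝ) • k)‖) (y2 := ‖(ρ : ℂ) * T u ((2 : ℝ) • k)‖)
    a0 hb0 hρ0 hκ0 hk huv0 huv hρ2 (norm_nonneg _) (norm_nonneg _) (norm_nonneg _) s0 s1 s2
    (by linarith) ?_ (by linarith) ?_ ?_
  · have := mul_le_mul_of_nonneg_left (hyk k) hκ0.le
    linarith
  · have h1 := mul_le_mul_of_nonneg_left (double hu u0 k) (norm_nonneg (ρ : ℂ))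
    rw [← norm_mul, mul_left_comm, ← norm_mul] at h1
    have h2 := norm_add_le (1 - (ρ : ℂ) * T u 0) ((ρ : ℂ) * (T u 0 - T u ((2 : ℝ) • k)))
    have h3 := norm_sub_le (1 - (ρ : ℂ) * T u k) (1 - (ρ : ℂ) * T u 0)
    have a1 : 1 - (ρ : ℂ) * T u 0 + (ρ : ℂ) * (T u 0 - T u ((2 : ℝ) • k)) =
        1 - (ρ : ℂ) * T u ((2 : ℝ) • k) := by ring
    have a2 : 1 - (ρ : ℂ) * T u k - (1 - (ρ : ℂ) * T u 0) = (ρ : ℂ) * (T u 0 - T u k) := by ring
    rw [a1] at h2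
    rw [a2] at h3
    linarith
  · have := norm_sub_norm_le (1 : ℂ) ((ρ : ℂ) * T u ((2 : ℝ) • k))
    rw [norm_one] at this
    linarith

end Pool.Agent.H902Z.ME
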