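import Mathlib

set_option autoImplicit false

open MeasureTheory

namespace Pool.Agent.H902Z.ME

/-- Euclidean space of dimension `d`, with Lebesgue measure. -/
abbrev Rd (d : ℕ) : Type := EuclideanSpace ℝ (Fin d)

/-- Convolution `(f * g)(x) = ∫ f(x - y) g(y) dy`. -/
noncomputable def conv {d : ℕ} (f g : Rd d → ℝ) (x : Rd d) : ℝ := ∫ y, f (x - y) * g y

/-- Admissible potentials: nonnegative, not zero almost everywhere, in `L_1` and in `L_p` for some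
real `p > max (d/2) 1`. -/
def Admissible {d : ℕ} (v : Rd d → ℝ) : Prop :=
  (∀ x, 0 ≤ v x) ∧ ¬ (∀ᵐ x, v x = 0) ∧ Integrable v ∧
    ∃ p : ℝ, max ((d : ℝ) / 2) 1 < p ∧ MemLp v (ENNReal.ofReal p)

/-- `S = (1 - u) v`. -/
noncomputable def SS {d : ℕ} (v u : Rd d → ℝ) (x : Rd d) : ℝ := (1 - u x) * v x

/-- `K = u * S`. -/
noncomputable def KK {d : ℕ} (v u : Rd d → ℝ) : Rd d → ℝ := conv u (SS v u)

/-- `L = u * u * S - 2 u * (u (u * S))`. -/
noncomputable def LL {d : ℕ} (v u : Rd d → ℝ) (x : Rd d) : ℝ :=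
  conv u (KK v u) x - 2 * conv u (fun y => u y * KK v u y) x

/-- Right-hand side of the Medium Equation. -/
noncomputable def mediumRHS {d : ℕ} (ρ : ℝ) (v u : Rd d → ℝ) (x : Rd d) : ℝ :=
  SS v u x - 2 * ρ * KK v u x + ρ ^ 2 * conv u (KK v u) x

/-- Right-hand side of the Big Equation. -/
noncomputable def bigRHS {d : ℕ} (ρ : ℝ) (v u : Rd d → ℝ) (x : Rd d) : ℝ :=
  SS v u x + (1 - u x) * (-2 * ρ * KK v u x + ρ ^ 2 * LL v u x)

/-- `u` is integrable, has values in `[0, 1]`, and `-(1/m) Δ u = F` holds in the sense of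
distributions (tested against all smooth compactly supported functions). -/
def IsSolution {d : ℕ} (m : ℝ) (u F : Rd d → ℝ) : Prop :=
  Integrable u ∧ (∀ x, 0 ≤ u x ∧ u x ≤ 1) ∧
    ∀ φ : Rd d → ℝ, ContDiff ℝ (⊤ : ℕ∞) φ → HasCompactSupport φ →
      -(1 / m) * ∫ x, u x * Laplacian.laplacian φ x = ∫ x, F x * φ x

/-- The radial potential `∑_j 2^(-j(d+1)) exp(-|x|^2 / 4^j)`. -/
noncomputable def pot (d : ℕ) (x : Rd d) : ℝ :=
  ∑' j : ℕ, (1 / 2 : ℝ) ^ (j * (d + 1)) * Real.exp (-‖x‖ ^ 2 / 4 ^ j)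

end Pool.Agent.H902Z.ME
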