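import Pool.Agent.H902Z.ME.Weak

set_option autoImplicit false

open MeasureTheory Filter Topology
open scoped RealInnerProductSpace Convolution

namespace Pool.Agent.H902Z.ME

variable {d : ℕ}

theorem T_zero (f : Rd d → ℝ) : T f 0 = ((∫ x, f x : ℝ) : ℂ) := by
  simp only [T, ew_zero, mul_one]
  exact integral_ofReal

theorem norm_T_le {f g : Rd d → ℝ} (hg : Integrable g) (h : ∀ x, |f x| ≤ g x) (k : Rd d) :
    ‖T f k‖ ≤ ∫ x, g x := by
  refine norm_integral_le_of_norm_le hg (Eventually.of_forall fun x => ?_)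
  rw [norm_mul, norm_ew, mul_one, Complex.norm_real]
  exact h x

theorem norm_T_le' {f : Rd d → ℝ} (hf : Integrable f) (h : ∀ x, 0 ≤ f x) (k : Rd d) :
    ‖T f k‖ ≤ ∫ x, f x :=
  norm_T_le hf (fun x => (abs_of_nonneg (h x)).le) k

theorem T_add {f g : Rd d → ℝ} (hf : Integrable f) (hg : Integrable g) (k : Rd d) :
    T (fun x => f x + g x) k = T f k + T g k := by
  simp only [T, Complex.ofReal_add, add_mul]
  exact integral_add (int_ew hf k) (int_ew hg k)

theorem T_sub {f g : Rd d → ℝ} (hf : Integrable f) (hg : Integrable g) (k : Rd d) :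
    T (fun x => f x - g x) k = T f k - T g k := by
  simp only [T, Complex.ofReal_sub, sub_mul]
  exact integral_sub (int_ew hf k) (int_ew hg k)

theorem T_mul (c : ℝ) (f : Rd d → ℝ) (k : Rd d) :
    T (fun x => c * f x) k = c * T f k := by
  simp only [T, Complex.ofReal_mul, mul_assoc]
  exact integral_const_mul _ _

theorem T_congr {f g : Rd d → ℝ} (h : f =ᵐ[volume] g) (k : Rd d) : T f k = T g k := by
  refine integral_congr_ae ?_
  filter_upwards [h] with x hx
  rw [hx]

theorem T_cont {f : Rd d → ℝ} (hf : Integrable f) : Continuous (T f) := by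
  refine continuous_of_dominated (bound := fun x => ‖f x‖) (fun k => (int_ew hf k).1)
    (fun k => Eventually.of_forall fun x => ?_) hf.norm (Eventually.of_forall fun x => ?_)
  · rw [norm_mul, norm_ew, mul_one, Complex.norm_real]
  · unfold ew
    fun_prop

theorem conv_eq (f g : Rd d → ℝ) : conv f g = f ⋆[ContinuousLinearMap.mul ℝ ℝ, volume] g := by
  funext x
  rw [convolution_eq_swap]
  rfl

theorem conv_int {f g : Rd d → ℝ} (hf : Integrable f) (hg : Integrable g) :
    Integrable (conv f g) := by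
  rw [conv_eq]
  exact hf.integrable_convolution _ hg

theorem T_conv {f g : Rd d → ℝ} (hf : Integrable f) (hg : Integrable g) (k : Rd d) :
    T (conv f g) k = T f k * T g k := by
  have h := integral_convolution (ContinuousLinearMap.mul ℂ ℂ) (int_ew hf k) (int_ew hg k)
    (μ := volume) (ν := volume)
  simp only [ContinuousLinearMap.mul_apply'] at h
  rw [T, T, T, ← h]
  refine integral_congr_ae (Eventually.of_forall fun x => ?_)
  simp only [convolution_eq_swap, ContinuousLinearMap.mul_apply', conv]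
  rw [← integral_complex_ofReal, ← integral_mul_const]
  refine integral_congr_ae (Eventually.of_forall fun y => ?_)
  have : ew k x = ew k (x - y) * ew k y := by rw [← ew_add, sub_add_cancel]
  simp only [this]
  push_cast
  ring

theorem int_conv {f g : Rd d → ℝ} (hf : Integrable f) (hg : Integrable g) :
    ∫ x, conv f g x = (∫ x, f x) * ∫ x, g x := by
  have := T_conv hf hg 0
  rw [T_zero, T_zero, T_zero] at this
  exact_mod_cast this

theorem conv_nonneg {f g : Rd d → ℝ} (hf : ∀ x, 0 ≤ f x) (hg : ∀ x, 0 ≤ g x) (x : Rd d) :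
    0 ≤ conv f g x :=
  integral_nonneg fun _ => mul_nonneg (hf _) (hg _)

theorem conv_le {f g : Rd d → ℝ} (hf : Integrable f) (hf0 : ∀ x, 0 ≤ f x) (hg0 : ∀ x, 0 ≤ g x)
    {B : ℝ} (hB : ∀ x, g x ≤ B) (x : Rd d) : conv f g x ≤ (∫ y, f y) * B := by
  rw [← integral_sub_left_eq_self f volume x, ← integral_mul_const]
  refine integral_mono_of_nonneg (Eventually.of_forall fun y => mul_nonneg (hf0 _) (hg0 _))
    ((hf.comp_sub_left x).mul_const B) (Eventually.of_forall fun y => ?_)
  exact mul_le_mul_of_nonneg_left (hB _) (hf0 _)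

/-- the quadratic defect -/
noncomputable def D (f : Rd d → ℝ) (k : Rd d) : ℝ := ∫ x, f x * (1 - Real.cos ⟪k, x⟫)

theorem hk_nonneg (k x : Rd d) : 0 ≤ 1 - Real.cos ⟪k, x⟫ := by linarith [Real.cos_le_one ⟪k, x⟫]

theorem int_D {f : Rd d → ℝ} (hf : Integrable f) (k : Rd d) :
    Integrable (fun x => f x * (1 - Real.cos ⟪k, x⟫)) :=
  hf.mul_bdd (c := 2) (by fun_prop) (Eventually.of_forall fun x => by
    rw [Real.norm_eq_abs, abs_of_nonneg (hk_nonneg k x)]
    linarith [Real.neg_one_le_cos ⟪k, x⟫])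

theorem D_eq {f : Rd d → ℝ} (hf : Integrable f) (k : Rd d) : D f k = (T f 0 - T f k).re := by
  rw [Complex.sub_re, T_re hf, T_re hf, ← integral_sub]
  · simp [D, mul_sub]
  · simpa using hf
  · exact hf.mul_bdd (c := 1) (by fun_prop)
      (Eventually.of_forall fun x => Real.abs_cos_le_one _)

theorem D_nonneg {f : Rd d → ℝ} (h : ∀ x, 0 ≤ f x) (k : Rd d) : 0 ≤ D f k :=
  integral_nonneg fun x => mul_nonneg (h x) (hk_nonneg k x)

theorem abs_D_le {f g : Rd d → ℝ} (hg : Integrable g) (h : ∀ x, |f x| ≤ g x) (k : Rd d) :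
    |D f k| ≤ D g k := by
  rw [← Real.norm_eq_abs]
  refine norm_integral_le_of_norm_le (int_D hg k) (Eventually.of_forall fun x => ?_)
  rw [norm_mul, Real.norm_eq_abs, Real.norm_eq_abs, abs_of_nonneg (hk_nonneg k x)]
  exact mul_le_mul_of_nonneg_right (h x) (hk_nonneg k x)

theorem normsq_one_sub (k x : Rd d) : ‖1 - ew k x‖ ^ 2 = 2 * (1 - Real.cos ⟪k, x⟫) := by
  rw [← Complex.normSq_eq_norm_sq, Complex.normSq_apply]
  simp only [Complex.sub_re, Complex.one_re, ew_re, Complex.sub_im, Complex.one_im, ew_im]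
  nlinarith [Real.sin_sq_add_cos_sq ⟪k, x⟫]

theorem T_diff {f : Rd d → ℝ} (hf : Integrable f) (k : Rd d) :
    T f 0 - T f k = ∫ x, (f x : ℂ) * (1 - ew k x) := by
  rw [T, T, ← integral_sub (int_ew hf 0) (int_ew hf k)]
  simp only [ew_zero, mul_sub]

theorem double {f : Rd d → ℝ} (hf : Integrable f) (h : ∀ x, 0 ≤ f x) (k : Rd d) :
    ‖T f 0 - T f ((2 : ℝ) • k)‖ ≤ 4 * ‖T f 0 - T f k‖ := by
  have hi : ∀ k : Rd d, Integrable (fun x => (f x : ℂ) * (1 - ew k x)) := by
    intro k
    have := (int_ew hf 0).sub (int_ew hf k)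
    refine this.congr (Eventually.of_forall fun x => ?_)
    simp [ew_zero, mul_sub]
  have e : 2 * (T f 0 - T f k) - (T f 0 - T f ((2 : ℝ) • k)) =
      ∫ x, (f x : ℂ) * (1 - ew k x) ^ 2 := by
    rw [T_diff hf, T_diff hf, ← integral_const_mul, ← integral_sub ((hi k).const_mul 2) (hi _)]
    refine integral_congr_ae (Eventually.of_forall fun x => ?_)
    simp only [ew_two]
    ring
  have b : ‖∫ x, (f x : ℂ) * (1 - ew k x) ^ 2‖ ≤ 2 * D f k := by
    rw [D, ← integral_const_mul]
    refine norm_integral_le_of_norm_le ((int_D hf k).const_mul 2)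
      (Eventually.of_forall fun x => ?_)
    rw [norm_mul, norm_pow, normsq_one_sub, Complex.norm_real, Real.norm_eq_abs,
      abs_of_nonneg (h x)]
    apply le_of_eq
    ring
  have c : D f k ≤ ‖T f 0 - T f k‖ := by
    rw [D_eq hf]
    exact Complex.re_le_norm _
  have e2 : T f 0 - T f ((2 : ℝ) • k) =
      2 * (T f 0 - T f k) - ∫ x, (f x : ℂ) * (1 - ew k x) ^ 2 := by
    rw [← e]
    ring
  rw [e2]
  refine (norm_sub_le _ _).trans ?_
  rw [norm_mul]
  simp only [Complex.norm_ofNat]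
  linarith

theorem int_zero_of_T {f : Rd d → ℝ} (hd : 1 ≤ d) (hf : Integrable f)
    (h : ∀ k, k ≠ 0 → T f k = 0) : ∫ x, f x = 0 := by
  haveI : Nonempty (Fin d) := ⟨⟨0, hd⟩⟩
  have h1 : T f = fun _ => 0 :=
    Continuous.ext_on (dense_compl_singleton (0 : Rd d)) (T_cont hf) continuous_const
      (fun k hk => h k hk)
  have := congrFun h1 0
  rw [T_zero] at this
  exact_mod_cast this

/-- tails -/
noncomputable def tail (f : Rd d → ℝ) (R : ℝ) : ℝ := ∫ x in {x | R < ‖x‖}, f x

theorem tail_small {f : Rd d → ℝ} (hf : Integrable f) (ε : ℝ) (hε : 0 < ε) :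
    ∃ R : ℝ, 0 < R ∧ ∀ R', R ≤ R' → (∀ x, 0 ≤ f x) → tail f R' ≤ ε := by
  have hm : ∀ R : ℝ, MeasurableSet {x : Rd d | R < ‖x‖} := fun R =>
    (isOpen_lt continuous_const continuous_norm).measurableSet
  have h := tendsto_setIntegral_of_antitone (f := f) (μ := volume)
    (s := fun n : ℕ => {x : Rd d | (n : ℝ) < ‖x‖}) (fun n => hm n)
    (fun a b hab x hx => show (a : ℝ) < ‖x‖ from lt_of_le_of_lt (Nat.cast_le.2 hab) hx) ⟨0, hf.integrableOn⟩
  have he : (⋂ n : ℕ, {x : Rd d | (n : ℝ) < ‖x‖}) = ∅ := by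
    rw [Set.eq_empty_iff_forall_notMem]
    intro x hx
    obtain ⟨n, hn⟩ := exists_nat_gt ‖x‖
    exact absurd (Set.mem_iInter.1 hx n) (not_lt.2 hn.le)
  rw [he, Measure.restrict_empty, integral_zero_measure] at h
  obtain ⟨n, hn⟩ := (h.eventually (gt_mem_nhds hε)).exists
  refine ⟨n + 1, by positivity, fun R' hR' h0 => le_trans ?_ hn.le⟩
  refine setIntegral_mono_set hf.integrableOn (Eventually.of_forall h0)
    (HasSubset.Subset.eventuallyLE fun x hx => ?_)
  simp only [Set.mem_setOf_eq] at hx ⊢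
  linarith

end Pool.Agent.H902Z.ME
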