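import Pool.Agent.H902Z.ME.Four

set_option autoImplicit false

open MeasureTheory Filter Topology
open scoped RealInnerProductSpace

namespace Pool.Agent.H902Z.ME

variable {d : ℕ}

theorem mul_int {u g : Rd d → ℝ} (hu : Integrable u) (hu1 : ∀ x, 0 ≤ u x ∧ u x ≤ 1)
    (hg : Integrable g) : Integrable (fun x => u x * g x) :=
  hg.bdd_mul (c := 1) hu.1 (Eventually.of_forall fun x => by
    rw [Real.norm_eq_abs, abs_of_nonneg (hu1 x).1]
    exact (hu1 x).2)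

theorem SS_eq (v u : Rd d → ℝ) : SS v u = fun x => v x - u x * v x := by
  funext x
  simp only [SS]
  ring

theorem SS_int {u v : Rd d → ℝ} (hu : Integrable u) (hu1 : ∀ x, 0 ≤ u x ∧ u x ≤ 1)
    (hv : Integrable v) : Integrable (SS v u) := by
  rw [SS_eq]
  exact hv.sub (mul_int hu hu1 hv)

theorem SS_nonneg {u v : Rd d → ℝ} (hu1 : ∀ x, 0 ≤ u x ∧ u x ≤ 1) (hv0 : ∀ x, 0 ≤ v x)
    (x : Rd d) : 0 ≤ SS v u x :=
  mul_nonneg (sub_nonneg.2 (hu1 x).2) (hv0 x)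

theorem T_SS {u v : Rd d → ℝ} (hu : Integrable u) (hu1 : ∀ x, 0 ≤ u x ∧ u x ≤ 1)
    (hv : Integrable v) (hv0 : ∀ x, 0 ≤ v x) (k : Rd d) :
    ‖T (SS v u) k - T v k‖ ≤ ∫ x, u x * v x := by
  rw [SS_eq, T_sub hv (mul_int hu hu1 hv), sub_sub_cancel_left, norm_neg]
  exact norm_T_le' (mul_int hu hu1 hv) (fun x => mul_nonneg (hu1 x).1 (hv0 x)) k

theorem uv_small {v : Rd d → ℝ} (hv : Integrable v) (hv0 : ∀ x, 0 ≤ v x) (δ : ℝ) (hδ : 0 < δ) :
    ∃ M : ℝ, 0 ≤ M ∧ ∀ u : Rd d → ℝ, Integrable u → (∀ x, 0 ≤ u x ∧ u x ≤ 1) →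
      ∫ x, u x * v x ≤ δ + M * ∫ x, u x := by
  have hb : ∀ (n : ℕ) x, ‖max (v x - n) 0‖ ≤ v x := by
    intro n x
    rw [Real.norm_eq_abs, abs_of_nonneg (le_max_right _ _)]
    exact max_le (by linarith [(Nat.cast_nonneg n : (0 : ℝ) ≤ n)]) (hv0 x)
  have hm : ∀ n : ℕ, AEStronglyMeasurable (fun x => max (v x - n) 0) volume := fun n =>
    (continuous_id.sub continuous_const).max continuous_const |>.comp_aestronglyMeasurable hv.1
  have t : Tendsto (fun n : ℕ => ∫ x, max (v x - n) 0) atTop (𝓝 (∫ _x : Rd d, (0 : ℝ))) := by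
    refine tendsto_integral_of_dominated_convergence v hm hv
      (fun n => Eventually.of_forall (hb n)) (Eventually.of_forall fun x => ?_)
    refine tendsto_const_nhds.congr' ?_
    obtain ⟨N, hN⟩ := exists_nat_gt (v x)
    filter_upwards [eventually_ge_atTop N] with n hn
    have : (N : ℝ) ≤ n := Nat.cast_le.2 hn
    rw [max_eq_right (by linarith)]
  rw [integral_zero] at t
  obtain ⟨n, hn⟩ := (t.eventually (gt_mem_nhds hδ)).exists
  refine ⟨n, Nat.cast_nonneg n, fun u hu hu1 => ?_⟩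
  have hi : Integrable (fun x => max (v x - n) 0) :=
    hv.mono' (hm n) (Eventually.of_forall (hb n))
  calc ∫ x, u x * v x ≤ ∫ x, (max (v x - n) 0 + n * u x) := by
        refine integral_mono (mul_int hu hu1 hv) (hi.add (hu.const_mul _)) fun x => ?_
        have h1 := le_max_left (v x - n) 0
        have h2 := le_max_right (v x - n) 0
        obtain ⟨h3, h4⟩ := hu1 x
        simp only
        nlinarith
    _ = (∫ x, max (v x - n) 0) + n * ∫ x, u x := by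
        rw [integral_add hi (hu.const_mul _), integral_const_mul]
    _ ≤ δ + n * ∫ x, u x := by linarith

theorem medium_T {m ρ : ℝ} {u v : Rd d → ℝ} (hv : Integrable v)
    (hs : IsSolution m u (mediumRHS ρ v u)) (k : Rd d) :
    ((‖k‖ ^ 2 / m : ℝ) : ℂ) * T u k = T (SS v u) k * (1 - ρ * T u k) ^ 2 := by
  have hu := hs.1
  have hS := SS_int hu hs.2.1 hv
  have hK : Integrable (KK v u) := conv_int hu hS
  have hM := conv_int hu hK
  have hF : Integrable (mediumRHS ρ v u) :=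
    (hS.sub (hK.const_mul (2 * ρ))).add (hM.const_mul (ρ ^ 2))
  rw [weak_T m u _ hF hs k]
  have : T (mediumRHS ρ v u) k = T (SS v u) k - (2 * ρ : ℝ) * T (KK v u) k +
      (ρ ^ 2 : ℝ) * T (conv u (KK v u)) k := by
    rw [← T_mul, ← T_mul, ← T_sub hS (hK.const_mul _)]
    exact T_add (f := fun x => SS v u x - 2 * ρ * KK v u x) (hS.sub (hK.const_mul _))
      (hM.const_mul _) k
  rw [this, T_conv hu hK, KK, T_conv hu hS]
  push_cast
  ring

theorem medium_none (hd : 1 ≤ d) {m : ℝ} (hm : 0 < m) {v : Rd d → ℝ} (hv0 : ∀ x, 0 ≤ v x)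
    (hv : Integrable v) (k : Rd d) (hk : 4 * ‖T v ((2 : ℝ) • k)‖ < ‖T v k‖) :
    ∃ ρ0 : ℝ, 0 < ρ0 ∧ ∀ ρ, ρ0 ≤ ρ → ¬ ∃ u, IsSolution m u (mediumRHS ρ v u) := by
  set a := ‖T v k‖ with ha
  set b := ‖T v ((2 : ℝ) • k)‖ with hb
  have hb0 : 0 ≤ b := norm_nonneg _
  have hk0 : k ≠ 0 := by
    rintro rfl
    rw [smul_zero] at hb
    rw [hb, ← ha] at hk
    linarith
  have hkn : 0 < ‖k‖ := norm_pos_iff.2 hk0
  set δ := (a - 4 * b) / 10 with hδ
  have hδ0 : 0 < δ := by linarith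
  obtain ⟨M, hM0, hM⟩ := uv_small hv hv0 (δ / 2) (by linarith)
  refine ⟨2 * M / δ + 16 * a * (‖k‖ ^ 2 / m) / (25 * δ ^ 2) + 1, by positivity, ?_⟩
  rintro ρ hρ ⟨u, hs⟩
  have p1 : 0 ≤ 2 * M / δ := by positivity
  have p2 : 0 ≤ 16 * a * (‖k‖ ^ 2 / m) / (25 * δ ^ 2) := by positivity
  have hρ0 : 0 < ρ := by linarith
  have hρ1 : 2 * M ≤ ρ * δ := by
    rw [← div_le_iff₀ hδ0]
    linarith
  have hρ2 : 16 * a * (‖k‖ ^ 2 / m) < ρ * (25 * δ ^ 2) := by
    rw [← div_lt_iff₀ (by positivity)]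
    linarith
  have hu := hs.1
  have hu1 := hs.2.1
  have hS := SS_int hu hu1 hv
  have hU0 : 0 ≤ ∫ x, u x := integral_nonneg fun x => (hu1 x).1
  have eq := medium_T hv hs
  have hU : ρ * ∫ x, u x = 1 := by
    have e0 := eq 0
    simp only [norm_zero, T_zero] at e0
    have e1 : (∫ x, SS v u x) * (1 - ρ * ∫ x, u x) ^ 2 = 0 := by
      have : ((0 : ℝ) ^ 2 / m : ℝ) = 0 := by simp
      rw [this] at e0
      simp only [Complex.ofReal_zero, zero_mul] at e0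
      exact_mod_cast e0.symm
    rcases mul_eq_zero.1 e1 with h | h
    · exfalso
      have hz : ∀ k', T (SS v u) k' = 0 := fun k' =>
        norm_le_zero_iff.1 (h ▸ norm_T_le' hS (SS_nonneg hu1 hv0) k')
      have hz2 : ∫ x, u x = 0 := by
        refine int_zero_of_T hd hu fun k' hk' => ?_
        have := eq k'
        rw [hz, zero_mul] at this
        refine (mul_eq_zero.1 this).resolve_left ?_
        have : 0 < ‖k'‖ ^ 2 / m := by
          have := norm_pos_iff.2 hk'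
          positivity
        exact_mod_cast this.ne'
      have h1 := T_SS hu hu1 hv hv0 k
      have h2 := hM u hu hu1
      rw [hz, zero_sub, norm_neg, ← ha] at h1
      rw [hz2] at h2
      linarith
    · have := pow_eq_zero_iff (two_ne_zero) |>.1 h
      linarith
  have huv : ∫ x, u x * v x ≤ δ := by
    have h2 := hM u hu hu1
    have : M * ∫ x, u x ≤ δ / 2 := by
      have : ρ * (M * ∫ x, u x) ≤ ρ * (δ / 2) := by
        calc ρ * (M * ∫ x, u x) = M * (ρ * ∫ x, u x) := by ring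
          _ = M := by rw [hU, mul_one]
          _ ≤ ρ * (δ / 2) := by linarith
      exact le_of_mul_le_mul_left this hρ0
    linarith
  have s1 : a - δ ≤ ‖T (SS v u) k‖ := by
    have h1 := T_SS hu hu1 hv hv0 k
    have := norm_sub_norm_le (T v k) (T (SS v u) k)
    rw [norm_sub_rev] at this
    linarith
  have s2 : ‖T (SS v u) ((2 : ℝ) • k)‖ ≤ b + δ := by
    have h1 := T_SS hu hu1 hv hv0 ((2 : ℝ) • k)
    have := norm_sub_norm_le (T (SS v u) ((2 : ℝ) • k)) (T v ((2 : ℝ) • k))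
    linarith
  have hy : ∀ k', ‖(ρ : ℂ) * T u k'‖ ≤ 1 := by
    intro k'
    rw [norm_mul, Complex.norm_real, Real.norm_eq_abs, abs_of_pos hρ0, ← hU]
    exact mul_le_mul_of_nonneg_left (norm_T_le' hu (fun x => (hu1 x).1) k') hρ0.le
  have hone : ∀ k', 1 - (ρ : ℂ) * T u k' = ρ * (T u 0 - T u k') := by
    intro k'
    rw [mul_sub, T_zero, ← Complex.ofReal_mul, hU]
    simp
  set r1 := ‖1 - (ρ : ℂ) * T u k‖ with hr1
  set r2 := ‖1 - (ρ : ℂ) * T u ((2 : ℝ) • k)‖ with hr2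
  have hr : r2 ≤ 4 * r1 := by
    rw [hr1, hr2, hone, hone, norm_mul, norm_mul]
    have := double hu (fun x => (hu1 x).1) k
    have h0 := norm_nonneg (ρ : ℂ)
    nlinarith
  have eqn : ∀ k', ‖k'‖ ^ 2 / m * ‖(ρ : ℂ) * T u k'‖ =
      ρ * (‖T (SS v u) k'‖ * ‖1 - (ρ : ℂ) * T u k'‖ ^ 2) := by
    intro k'
    have := congrArg (fun z => ‖z‖) (eq k')
    simp only [norm_mul, norm_pow, Complex.norm_real, Real.norm_eq_abs] at this ⊢
    rw [abs_of_nonneg (by positivity)] at this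
    rw [← this, abs_of_pos hρ0]
    ring
  set κ := ‖k‖ ^ 2 / m with hκ
  have hκ0 : 0 < κ := by positivity
  have e1 := eqn k
  have e2 := eqn ((2 : ℝ) • k)
  have hk2 : ‖(2 : ℝ) • k‖ ^ 2 / m = 4 * κ := by
    rw [norm_smul, hκ]
    simp only [Real.norm_ofNat]
    ring
  rw [hk2, ← hr2] at e2
  rw [← hκ, ← hr1] at e1
  set y2 := ‖(ρ : ℂ) * T u ((2 : ℝ) • k)‖ with hy2
  have hy2' : 1 - r2 ≤ y2 := by
    have := norm_sub_norm_le (1 : ℂ) ((ρ : ℂ) * T u ((2 : ℝ) • k))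
    rw [norm_one] at this
    linarith
  have r10 : 0 ≤ r1 := norm_nonneg _
  have r20 : 0 ≤ r2 := norm_nonneg _
  have ha' : 0 < a - δ := by linarith
  have f1 : ρ * ((a - δ) * r1 ^ 2) ≤ κ := by
    have := hy k
    calc ρ * ((a - δ) * r1 ^ 2) ≤ ρ * (‖T (SS v u) k‖ * r1 ^ 2) := by gcongr
      _ = κ * ‖(ρ : ℂ) * T u k‖ := e1.symm
      _ ≤ κ := mul_le_of_le_one_right hκ0.le this
  have f2 : 4 * κ * y2 ≤ ρ * ((b + δ) * (16 * r1 ^ 2)) := by
    rw [e2]
    have : r2 ^ 2 ≤ 16 * r1 ^ 2 := by nlinarith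
    gcongr
  have f3 : 4 * κ * (y2 * (a - δ)) ≤ 4 * κ * (4 * (b + δ)) := by
    calc 4 * κ * (y2 * (a - δ)) = 4 * κ * y2 * (a - δ) := by ring
      _ ≤ ρ * ((b + δ) * (16 * r1 ^ 2)) * (a - δ) := by gcongr
      _ = 16 * (b + δ) * (ρ * ((a - δ) * r1 ^ 2)) := by ring
      _ ≤ 16 * (b + δ) * κ := by gcongr
      _ = 4 * κ * (4 * (b + δ)) := by ring
  have f4 : y2 * (a - δ) ≤ 4 * (b + δ) := le_of_mul_le_mul_left f3 (by positivity)
  have f5 : 5 * δ ≤ 4 * r1 * (a - δ) := by nlinarith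
  have f6 : 25 * δ ^ 2 ≤ 16 * r1 ^ 2 * (a - δ) ^ 2 := by nlinarith
  have f7 : ρ * (25 * δ ^ 2) ≤ 16 * (a - δ) * κ := by
    calc ρ * (25 * δ ^ 2) ≤ ρ * (16 * r1 ^ 2 * (a - δ) ^ 2) := by gcongr
      _ = 16 * (a - δ) * (ρ * ((a - δ) * r1 ^ 2)) := by ring
      _ ≤ 16 * (a - δ) * κ := by gcongr
  nlinarith

theorem T_fourier (v : Rd d → ℝ) (w : Rd d) :
    FourierTransform.fourier (fun x => (v x : ℂ)) w = T v ((-2 * Real.pi) • w) := by
  rw [Real.fourier_eq', T]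
  refine integral_congr_ae (Eventually.of_forall fun x => ?_)
  simp only [ew, real_inner_smul_left, smul_eq_mul, real_inner_comm w x]
  ring

theorem gauss_int {b : ℝ} (hb : 0 < b) : Integrable (fun x : Rd d => Real.exp (-b * ‖x‖ ^ 2)) := by
  have := (GaussianFourier.integrable_cexp_neg_mul_sq_norm_add (V := Rd d) (b := b)
    (by simpa using hb) 0 0).norm
  refine this.congr (Eventually.of_forall fun x => ?_)
  simp only [zero_mul, add_zero, Complex.norm_exp]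
  congr 1
  norm_cast

theorem T_gauss {b : ℝ} (hb : 0 < b) (k : Rd d) :
    T (fun x : Rd d => Real.exp (-b * ‖x‖ ^ 2)) k =
      (((Real.pi / b) ^ ((d : ℝ) / 2) * Real.exp (-‖k‖ ^ 2 / (4 * b)) : ℝ) : ℂ) := by
  have := GaussianFourier.integral_cexp_neg_mul_sq_norm_add (V := Rd d) (b := b)
    (by simpa using hb) Complex.I k
  rw [T]
  simp only [ew, Complex.ofReal_exp, ← Complex.exp_add]
  convert this using 1
  · refine integral_congr_ae (Eventually.of_forall fun x => ?_)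
    simp only
    congr 1
    push_cast
    ring
  · rw [Complex.ofReal_mul, Complex.ofReal_cpow (by positivity), Complex.I_sq]
    simp

theorem admissible_of_bdd {v : Rd d → ℝ} (hv0 : ∀ x, 0 ≤ v x) (hv : Integrable v) {V : ℝ}
    (hV : ∀ x, v x ≤ V) (hne : T v 0 ≠ 0) : Admissible v := by
  refine ⟨hv0, fun h => hne ?_, hv, (d : ℝ) + 2, ?_, ?_⟩
  · rw [T_congr (g := fun _ => 0) h]
    simp [T]
  · have : (0 : ℝ) ≤ d := Nat.cast_nonneg d
    exact max_lt (by linarith) (by linarith)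
  · have hd : (0 : ℝ) ≤ d := Nat.cast_nonneg d
    have hV0 : 0 ≤ V := (hv0 0).trans (hV 0)
    rw [← integrable_norm_rpow_iff hv.1 (by simp; linarith) ENNReal.ofReal_ne_top,
      ENNReal.toReal_ofReal (by linarith)]
    refine (hv.const_mul (V ^ ((d : ℝ) + 1))).mono'
      ((hv.1.norm.aemeasurable.pow_const _).aestronglyMeasurable)
      (Eventually.of_forall fun x => ?_)
    rw [Real.norm_eq_abs, Real.norm_eq_abs, abs_of_nonneg (hv0 x),
      abs_of_nonneg (Real.rpow_nonneg (hv0 x) _),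
      show (d : ℝ) + 2 = (d + 1) + 1 by ring, Real.rpow_add_one' (hv0 x) (by linarith)]
    exact mul_le_mul_of_nonneg_right (Real.rpow_le_rpow (hv0 x) (hV x) (by linarith)) (hv0 x)

theorem gauss_example (hd : 1 ≤ d) :
    Admissible (fun x : Rd d => Real.exp (-‖x‖ ^ 2)) ∧
      ∃ k : Rd d, 4 * ‖T (fun x : Rd d => Real.exp (-‖x‖ ^ 2)) ((2 : ℝ) • k)‖ <
        ‖T (fun x : Rd d => Real.exp (-‖x‖ ^ 2)) k‖ := by
  have hT := T_gauss (d := d) one_pos
  have hI := gauss_int (d := d) one_pos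
  simp only [neg_mul, one_mul, div_one, mul_one] at hT hI
  have hc : 0 < Real.pi ^ ((d : ℝ) / 2) := Real.rpow_pos_of_pos Real.pi_pos _
  refine ⟨admissible_of_bdd (fun x => (Real.exp_pos _).le) hI (V := 1)
    (fun x => Real.exp_le_one_iff.2 (neg_nonpos.2 (by positivity))) ?_,
    EuclideanSpace.single ⟨0, hd⟩ 2, ?_⟩
  · rw [hT]
    exact_mod_cast (mul_pos hc (Real.exp_pos _)).ne'
  · rw [hT, hT, Complex.norm_real, Complex.norm_real, Real.norm_eq_abs, Real.norm_eq_abs,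
      abs_of_pos (mul_pos hc (Real.exp_pos _)), abs_of_pos (mul_pos hc (Real.exp_pos _)),
      norm_smul]
    simp only [Real.norm_ofNat, PiLp.norm_single]
    have h1 : Real.exp (-(2 : ℝ) ^ 2 / 4) = Real.exp 3 * Real.exp (-(2 * 2 : ℝ) ^ 2 / 4) := by
      rw [← Real.exp_add]
      norm_num
    have h2 : (4 : ℝ) < Real.exp 3 := by
      have := Real.add_one_lt_exp (x := 3) (by norm_num)
      linarith
    have h3 := Real.exp_pos (-(2 * 2 : ℝ) ^ 2 / 4)
    rw [h1]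
    have := mul_pos hc h3
    nlinarith

theorem medium_main (hd : 1 ≤ d) {m : ℝ} (hm : 0 < m) :
    (∀ v : Rd d → ℝ, Admissible v →
      (∃ w : Rd d, 4 * ‖FourierTransform.fourier (fun x => (v x : ℂ)) ((2 : ℝ) • w)‖ <
        ‖FourierTransform.fourier (fun x => (v x : ℂ)) w‖) →
      ∃ ρ0 : ℝ, 0 < ρ0 ∧ ∀ ρ, ρ0 ≤ ρ → ¬ ∃ u, IsSolution m u (mediumRHS ρ v u)) ∧
    Admissible (fun x : Rd d => Real.exp (-‖x‖ ^ 2)) ∧
      ∃ w : Rd d, 4 * ‖FourierTransform.fourier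
          (fun x : Rd d => ((Real.exp (-‖x‖ ^ 2) : ℝ) : ℂ)) ((2 : ℝ) • w)‖ <
        ‖FourierTransform.fourier (fun x : Rd d => ((Real.exp (-‖x‖ ^ 2) : ℝ) : ℂ)) w‖ := by
  refine ⟨fun v hv ⟨w, hw⟩ => ?_, (gauss_example hd).1, ?_⟩
  · rw [T_fourier, T_fourier, smul_comm] at hw
    exact medium_none hd hm hv.1 hv.2.2.1 _ hw
  · obtain ⟨k, hk⟩ := (gauss_example hd).2
    refine ⟨(-2 * Real.pi)⁻¹ • k, ?_⟩
    have hp : (-2 * Real.pi) ≠ 0 := mul_ne_zero (by norm_num) Real.pi_ne_zero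
    rw [T_fourier (fun x : Rd d => Real.exp (-‖x‖ ^ 2)),
      T_fourier (fun x : Rd d => Real.exp (-‖x‖ ^ 2)), smul_comm, smul_inv_smul₀ hp]
    exact hk

end Pool.Agent.H902Z.ME
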