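import Pool.Agent.H902Z.ME.Big4

set_option autoImplicit false

open MeasureTheory Filter Topology
open scoped RealInnerProductSpace

namespace Pool.Agent.H902Z.ME

variable {d : ℕ}

/-- one term of the potential -/
noncomputable def tm (d j : ℕ) (x : Rd d) : ℝ :=
  (1 / 2 : ℝ) ^ (j * (d + 1)) * Real.exp (-‖x‖ ^ 2 / 4 ^ j)

/-- its Fourier transform -/
noncomputable def cf (d j : ℕ) (k : Rd d) : ℝ :=
  Real.pi ^ ((d : ℝ) / 2) * (1 / 2) ^ j * Real.exp (-(4 ^ j * ‖k‖ ^ 2 / 4))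

theorem tm_eq (j : ℕ) : tm d j = fun x =>
    (1 / 2 : ℝ) ^ (j * (d + 1)) * Real.exp (-(1 / 4 ^ j : ℝ) * ‖x‖ ^ 2) := by
  funext x
  rw [tm]
  congr 2
  ring

theorem tm_nonneg (j : ℕ) (x : Rd d) : 0 ≤ tm d j x := by
  unfold tm
  positivity

theorem tm_le (j : ℕ) (x : Rd d) : tm d j x ≤ (1 / 2) ^ j := by
  have h1 : Real.exp (-‖x‖ ^ 2 / 4 ^ j) ≤ 1 :=
    Real.exp_le_one_iff.2 (div_nonpos_of_nonpos_of_nonneg (neg_nonpos.2 (by positivity))
      (by positivity))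
  have h2 : (1 / 2 : ℝ) ^ (j * (d + 1)) ≤ (1 / 2) ^ j :=
    pow_le_pow_of_le_one (by norm_num) (by norm_num) (Nat.le_mul_of_pos_right _ (Nat.succ_pos d))
  calc tm d j x ≤ (1 / 2 : ℝ) ^ (j * (d + 1)) * 1 := by
        unfold tm
        gcongr
    _ ≤ _ := by rw [mul_one]; exact h2

theorem tm_sum (x : Rd d) : Summable (fun j => tm d j x) :=
  Summable.of_nonneg_of_le (fun j => tm_nonneg j x) (fun j => tm_le j x) summable_geometric_two

theorem tm_int (j : ℕ) : Integrable (tm d j) := by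
  rw [tm_eq]
  exact (gauss_int (by positivity)).const_mul _

theorem T_tm (j : ℕ) (k : Rd d) : T (tm d j) k = (cf d j k : ℂ) := by
  rw [tm_eq, T_mul, T_gauss (by positivity), ← Complex.ofReal_mul, cf]
  congr 1
  have e1 : (Real.pi / (1 / 4 ^ j)) ^ ((d : ℝ) / 2) = Real.pi ^ ((d : ℝ) / 2) * 2 ^ (j * d) := by
    rw [one_div, div_inv_eq_mul, Real.mul_rpow Real.pi_pos.le (by positivity)]
    congr 1
    rw [show (4 : ℝ) ^ j = (2 : ℝ) ^ ((2 * j : ℕ) : ℝ) by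
      rw [Real.rpow_natCast, pow_mul]; norm_num, ← Real.rpow_mul (by norm_num),
      ← Real.rpow_natCast]
    congr 1
    push_cast
    ring
  have e2 : -‖k‖ ^ 2 / (4 * (1 / 4 ^ j)) = -((4 : ℝ) ^ j * ‖k‖ ^ 2 / 4) := by
    field_simp
  have e3 : (1 / 2 : ℝ) ^ (j * (d + 1)) * 2 ^ (j * d) = (1 / 2) ^ j := by
    rw [mul_add, mul_one, pow_add, mul_right_comm, ← mul_pow]
    norm_num
  rw [e1, e2, ← e3]
  ring

theorem cf_pos (j : ℕ) (k : Rd d) : 0 < cf d j k := by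
  have := Real.pi_pos
  unfold cf
  positivity

theorem cf_zero (j : ℕ) : cf d j 0 = Real.pi ^ ((d : ℝ) / 2) * (1 / 2) ^ j := by
  simp [cf]

theorem int_tm (j : ℕ) : ∫ x, tm d j x = Real.pi ^ ((d : ℝ) / 2) * (1 / 2) ^ j := by
  have := T_tm (d := d) j 0
  rw [T_zero, cf_zero] at this
  exact_mod_cast this

theorem pot_eq (x : Rd d) : pot d x = ∑' j, tm d j x := rfl

theorem pot_nonneg (x : Rd d) : 0 ≤ pot d x := tsum_nonneg fun j => tm_nonneg j x

theorem pot_le (x : Rd d) : pot d x ≤ 2 := by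
  rw [pot_eq, ← tsum_geometric_two]
  exact (tm_sum x).tsum_le_tsum (fun j => tm_le j x) summable_geometric_two

theorem pot_int : Integrable (pot d) := by
  have hs : Summable fun j => ∫ x, ‖tm d j x‖ := by
    simp only [Real.norm_eq_abs, abs_of_nonneg (tm_nonneg _ _), int_tm]
    exact summable_geometric_two.mul_left _
  have h := hasSum_integral_of_summable_integral_norm (fun j => tm_int (d := d) j) hs
  simp only [int_tm] at h
  have h2 := hasSum_geometric_two.mul_left (Real.pi ^ ((d : ℝ) / 2))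
  have h3 := h.unique h2
  apply Integrable.of_integral_ne_zero
  have := Real.pi_pos
  exact fun h0 => (by positivity : Real.pi ^ ((d : ℝ) / 2) * 2 ≠ 0) (h3.symm.trans h0)

theorem T_pot (k : Rd d) : ∃ s : ℝ, HasSum (fun j => cf d j k) s ∧ T (pot d) k = s := by
  have hs : Summable fun j => ∫ x, ‖(tm d j x : ℂ) * ew k x‖ := by
    simp only [norm_mul, norm_ew, mul_one, Complex.norm_real, Real.norm_eq_abs,
      abs_of_nonneg (tm_nonneg _ _), int_tm]
    exact summable_geometric_two.mul_left _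
  have h := hasSum_integral_of_summable_integral_norm (fun j => int_ew (tm_int (d := d) j) k) hs
  have e : ∀ x, ∑' j, (tm d j x : ℂ) * ew k x = (pot d x : ℂ) * ew k x := fun x => by
    rw [tsum_mul_right, pot_eq, Complex.ofReal_tsum]
  simp only [e] at h
  have h' : HasSum (fun j => (cf d j k : ℂ)) (T (pot d) k) := by
    simp only [← T_tm]
    exact h
  have h2 : Summable fun j => cf d j k := Complex.summable_ofReal.1 h'.summable
  exact ⟨_, h2.hasSum, h'.unique (Complex.hasSum_ofReal.2 h2.hasSum)⟩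

theorem cf_le (j : ℕ) (k : Rd d) : cf d j k ≤ cf d j 0 := by
  have := Real.pi_pos
  unfold cf
  gcongr
  simp

theorem pot_heavy (hd : 1 ≤ d) (C : ℝ) : ∃ k, C * ‖k‖ ^ 2 < D (pot d) k := by
  have hp := Real.pi_pos
  set c := Real.pi ^ ((d : ℝ) / 2) * (1 - Real.exp (-(1 / 4))) with hc
  have c0 : 0 < c := mul_pos (by positivity)
    (sub_pos.2 (Real.exp_lt_one_iff.2 (by norm_num)))
  obtain ⟨j, hj⟩ := pow_unbounded_of_one_lt (C / c) (one_lt_two : (1 : ℝ) < 2)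
  set k : Rd d := EuclideanSpace.single ⟨0, hd⟩ ((1 / 2 : ℝ) ^ j) with hk
  have nk : ‖k‖ = (1 / 2) ^ j := by
    rw [hk, PiLp.norm_single, Real.norm_eq_abs, abs_of_pos (by positivity)]
  refine ⟨k, ?_⟩
  obtain ⟨s0, h0, e0⟩ := T_pot (d := d) 0
  obtain ⟨s1, h1, e1⟩ := T_pot k
  rw [D_eq pot_int, e0, e1, ← Complex.ofReal_sub, Complex.ofReal_re]
  have hle : cf d j 0 - cf d j k ≤ s0 - s1 :=
    le_hasSum (h0.sub h1) j fun i _ => sub_nonneg.2 (cf_le i k)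
  have e4 : (4 : ℝ) ^ j * ((1 / 2) ^ j) ^ 2 = 1 := by
    rw [← pow_mul, mul_comm j 2, pow_mul, ← mul_pow]
    norm_num
  have e5 : cf d j 0 - cf d j k = c * (1 / 2) ^ j := by
    rw [cf_zero, cf, nk, e4, hc]
    ring
  have e6 : (2 : ℝ) ^ j * (1 / 2) ^ j = 1 := by
    rw [← mul_pow]
    norm_num
  rw [div_lt_iff₀ c0] at hj
  have p0 : (0 : ℝ) < (1 / 2) ^ j := by positivity
  rw [nk]
  calc C * ((1 / 2) ^ j) ^ 2 < (2 ^ j * c) * ((1 / 2) ^ j) ^ 2 := by gcongr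
    _ = c * (1 / 2) ^ j * (2 ^ j * (1 / 2) ^ j) := by ring
    _ = cf d j 0 - cf d j k := by rw [e6, e5, mul_one]
    _ ≤ _ := hle

theorem pot_drop (k : Rd d) (hk : 6000 ≤ ‖k‖ ^ 2) :
    4000 * ‖T (pot d) ((2 : ℝ) • k)‖ < ‖T (pot d) k‖ := by
  obtain ⟨s1, h1, e1⟩ := T_pot k
  obtain ⟨s2, h2, e2⟩ := T_pot ((2 : ℝ) • k)
  have p1 : 0 < s1 := (cf_pos 0 k).trans_le (le_hasSum h1 0 fun i _ => (cf_pos i k).le)
  have p2 : 0 ≤ s2 := h2.nonneg fun i => (cf_pos i _).le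
  have hle : 4500 * s2 ≤ s1 := by
    refine hasSum_le (fun j => ?_) (h2.mul_left 4500) h1
    have hp := Real.pi_pos
    have n2 : ‖(2 : ℝ) • k‖ = 2 * ‖k‖ := by rw [norm_smul]; simp
    have o4 : (1 : ℝ) ≤ 4 ^ j := one_le_pow₀ (by norm_num)
    have e : Real.exp (-(4 ^ j * ‖k‖ ^ 2 / 4)) =
        Real.exp (3 * (4 ^ j * ‖k‖ ^ 2) / 4) * Real.exp (-(4 ^ j * (2 * ‖k‖) ^ 2 / 4)) := by
      rw [← Real.exp_add]
      congr 1
      ring
    have b : (4500 : ℝ) ≤ Real.exp (3 * (4 ^ j * ‖k‖ ^ 2) / 4) := by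
      have := Real.add_one_le_exp (3 * (4 ^ j * ‖k‖ ^ 2) / 4)
      nlinarith
    rw [cf, cf, n2, e]
    calc _ = Real.pi ^ ((d : ℝ) / 2) * (1 / 2) ^ j *
          (4500 * Real.exp (-(4 ^ j * (2 * ‖k‖) ^ 2 / 4))) := by ring
      _ ≤ _ := by gcongr
  rw [e1, e2, Complex.norm_real, Complex.norm_real, Real.norm_eq_abs, Real.norm_eq_abs,
    abs_of_pos p1, abs_of_nonneg p2]
  rcases p2.eq_or_lt with h | h
  · rw [← h]
    simpa using p1
  · linarith

theorem big_main (hd : 1 ≤ d) {m : ℝ} (hm : 0 < m) : Admissible (pot d) ∧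
    ∃ ρ0 : ℝ, 0 < ρ0 ∧ ∀ ρ, ρ0 ≤ ρ → ¬ ∃ u, IsSolution m u (bigRHS ρ (pot d) u) := by
  refine ⟨admissible_of_bdd pot_nonneg pot_int pot_le ?_, ?_⟩
  · obtain ⟨s, h, e⟩ := T_pot (d := d) 0
    have p : 0 < s := (cf_pos 0 0).trans_le (le_hasSum h 0 fun i _ => (cf_pos i _).le)
    rw [e]
    exact_mod_cast p.ne'
  · set A := 6000 + 160000 * m with hA
    set k : Rd d := EuclideanSpace.single ⟨0, hd⟩ (Real.sqrt A) with hk
    have nk : ‖k‖ ^ 2 = A := by
      rw [hk, PiLp.norm_single, Real.norm_eq_abs, sq_abs, Real.sq_sqrt (by positivity)]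
    refine big_none hd hm pot_int pot_nonneg pot_le (pot_heavy hd) k ?_ (pot_drop k ?_)
    · rw [nk, le_div_iff₀ hm]
      linarith
    · rw [nk]
      nlinarith

end Pool.Agent.H902Z.ME
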