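import Pool.Agent.H902Z.ME.Defs

set_option autoImplicit false

open MeasureTheory Filter Topology
open scoped RealInnerProductSpace

namespace Pool.Agent.H902Z.ME

variable {d : ℕ}

theorem nle (i : ℕ) : (i : WithTop ℕ∞) ≤ ((⊤ : ℕ∞) : WithTop ℕ∞) := by exact_mod_cast le_top

theorem lap_eq (φ : Rd d → ℝ) (x : Rd d) : Laplacian.laplacian φ x =
    ∑ i, iteratedFDeriv ℝ 2 φ x ![EuclideanSpace.basisFun (Fin d) ℝ i,
      EuclideanSpace.basisFun (Fin d) ℝ i] :=
  congrFun (InnerProductSpace.laplacian_eq_iteratedFDeriv_orthonormalBasis φ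
    (EuclideanSpace.basisFun (Fin d) ℝ)) x

theorem lap_le (φ : Rd d → ℝ) (x : Rd d) :
    ‖Laplacian.laplacian φ x‖ ≤ d * ‖iteratedFDeriv ℝ 2 φ x‖ := by
  rw [lap_eq]
  refine (norm_sum_le _ _).trans ?_
  have : ∀ i : Fin d, ‖iteratedFDeriv ℝ 2 φ x ![EuclideanSpace.basisFun (Fin d) ℝ i,
      EuclideanSpace.basisFun (Fin d) ℝ i]‖ ≤ ‖iteratedFDeriv ℝ 2 φ x‖ := by
    intro i
    refine ((iteratedFDeriv ℝ 2 φ x).le_opNorm _).trans ?_
    simp [Fin.prod_univ_two]
  refine (Finset.sum_le_sum fun i _ => this i).trans ?_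
  simp

theorem lap_cont (φ : Rd d → ℝ) (hφ : ContDiff ℝ (⊤ : ℕ∞) φ) :
    Continuous (Laplacian.laplacian φ : Rd d → ℝ) := by
  have : (Laplacian.laplacian φ : Rd d → ℝ) = fun x =>
      ∑ i, iteratedFDeriv ℝ 2 φ x ![EuclideanSpace.basisFun (Fin d) ℝ i,
        EuclideanSpace.basisFun (Fin d) ℝ i] := funext (lap_eq φ)
  rw [this]
  have hc : Continuous (iteratedFDeriv ℝ 2 φ) :=
    hφ.continuous_iteratedFDeriv (m := 2) (nle 2)
  exact continuous_finset_sum _ fun i _ => by fun_prop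

theorem norm_comp_le {G : Type} [NormedAddCommGroup G] [NormedSpace ℝ G] (g : Rd d →L[ℝ] G)
    (f : G → ℝ) (hf : ContDiff ℝ (⊤ : ℕ∞) f) (i : ℕ) (x : Rd d) :
    ‖iteratedFDeriv ℝ i (f ∘ g) x‖ ≤ ‖iteratedFDeriv ℝ i f (g x)‖ * ‖g‖ ^ i := by
  rw [g.iteratedFDeriv_comp_right hf x (by exact_mod_cast le_top)]
  refine (ContinuousMultilinearMap.norm_compContinuousLinearMap_le _ _).trans ?_
  simp

theorem lap_wave (h : ℝ → ℝ) (hh : ContDiff ℝ (⊤ : ℕ∞) h)
    (h2 : ∀ t, iteratedDeriv 2 h t = - h t) (k x : Rd d) :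
    Laplacian.laplacian (h ∘ innerSL ℝ k) x = -(‖k‖ ^ 2) * h ⟪k, x⟫ := by
  rw [lap_eq, (innerSL ℝ k).iteratedFDeriv_comp_right hh x (nle 2)]
  simp only [ContinuousMultilinearMap.compContinuousLinearMap_apply,
    iteratedFDeriv_apply_eq_iteratedDeriv_mul_prod, Fin.prod_univ_two, h2, innerSL_apply_apply,
    smul_eq_mul, Matrix.cons_val_zero, Matrix.cons_val_one, Matrix.cons_val_fin_one]
  rw [← Finset.sum_mul, EuclideanSpace.norm_sq_eq]
  simp only [EuclideanSpace.inner_basisFun_real, Real.norm_eq_abs, sq_abs]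
  simp only [sq]
  ring


theorem weak_wave (m : ℝ) (u F : Rd d → ℝ) (hF : Integrable F) (hs : IsSolution m u F)
    (h : ℝ → ℝ) (hh : ContDiff ℝ (⊤ : ℕ∞) h) (h2 : ∀ t, iteratedDeriv 2 h t = - h t)
    (hb : ∀ i t, |iteratedDeriv i h t| ≤ 1) (k : Rd d) :
    ‖k‖ ^ 2 / m * ∫ x, u x * h ⟪k, x⟫ = ∫ x, F x * h ⟪k, x⟫ := by
  obtain ⟨hu, _, hw⟩ := hs
  let χ : ContDiffBump (0 : Rd d) := ⟨1, 2, one_pos, one_lt_two⟩
  have hχ : ContDiff ℝ (⊤ : ℕ∞) χ := χ.contDiff
  have hbd : ∀ i : ℕ, ∃ B : ℝ, ∀ x, ‖iteratedFDeriv ℝ i χ x‖ ≤ B := fun i =>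
    (hχ.continuous_iteratedFDeriv (m := i) (nle i)).bounded_above_of_compact_support
      (χ.hasCompactSupport.iteratedFDeriv i)
  choose B hB using hbd
  let c : ℕ → ℝ := fun n => 1 / ((n : ℝ) + 1)
  have hc0 : ∀ n, 0 < c n := fun n => by positivity
  have hc1 : ∀ n, c n ≤ 1 := fun n => by
    simp only [c]
    rw [div_le_one (by positivity)]
    linarith [(Nat.cast_nonneg n : (0 : ℝ) ≤ n)]
  have hc : Tendsto c atTop (𝓝 0) := tendsto_one_div_add_atTop_nhds_zero_nat
  let sc : ℕ → (Rd d →L[ℝ] Rd d) := fun n => c n • ContinuousLinearMap.id ℝ (Rd d)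
  have hsc : ∀ n, ‖sc n‖ ≤ 1 := fun n => by
    simp only [sc]
    rw [norm_smul, Real.norm_eq_abs, abs_of_pos (hc0 n)]
    exact mul_le_one₀ (hc1 n) (norm_nonneg _) ContinuousLinearMap.norm_id_le
  let w : Rd d → ℝ := h ∘ innerSL ℝ k
  have hwc : ContDiff ℝ (⊤ : ℕ∞) w := hh.comp (innerSL ℝ k).contDiff
  let φ : ℕ → Rd d → ℝ := fun n x => (χ ∘ sc n) x * w x
  have hφc : ∀ n, ContDiff ℝ (⊤ : ℕ∞) (φ n) := fun n => (hχ.comp (sc n).contDiff).mul hwc
  have hφs : ∀ n, HasCompactSupport (φ n) := by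
    intro n
    have h1 : HasCompactSupport (fun x : Rd d => χ (c n • x)) :=
      χ.hasCompactSupport.comp_smul (hc0 n).ne'
    have h2 : φ n = (fun x : Rd d => χ (c n • x)) * w := by
      funext x
      simp [φ, sc]
    rw [h2]
    exact h1.mul_right
  have hev : ∀ x, ∀ᶠ n in atTop, φ n =ᶠ[𝓝 x] w := by
    intro x
    have : Tendsto (fun n => c n * ‖x‖) atTop (𝓝 (0 * ‖x‖)) := hc.mul_const _
    rw [zero_mul] at this
    filter_upwards [this.eventually (gt_mem_nhds one_pos)] with n hn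
    have hmem : sc n x ∈ Metric.ball (0 : Rd d) χ.rIn := by
      simp only [sc, ContinuousLinearMap.smul_apply, ContinuousLinearMap.id_apply,
        mem_ball_zero_iff, norm_smul, Real.norm_eq_abs, abs_of_pos (hc0 n)]
      exact hn
    have h1 := (χ.eventuallyEq_one_of_mem_ball hmem).comp_tendsto
      (sc n).continuous.continuousAt
    filter_upwards [h1] with y hy
    simp only [φ, hy]
    simp
  have hwb : ∀ i x, ‖iteratedFDeriv ℝ i w x‖ ≤ ‖innerSL ℝ k‖ ^ i := by
    intro i x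
    refine (norm_comp_le _ h hh i x).trans ?_
    rw [norm_iteratedFDeriv_eq_norm_iteratedDeriv, Real.norm_eq_abs]
    exact mul_le_of_le_one_left (by positivity) (hb _ _)
  have hχb : ∀ n i x, ‖iteratedFDeriv ℝ i (χ ∘ sc n) x‖ ≤ B i := by
    intro n i x
    refine (norm_comp_le _ χ hχ i x).trans ?_
    refine (mul_le_of_le_one_right (norm_nonneg _) (pow_le_one₀ (norm_nonneg _) (hsc n))).trans
      (hB _ _)
  let C : ℝ := d * ∑ i ∈ Finset.range (2 + 1), ((2 : ℕ).choose i : ℝ) * B i *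
    ‖innerSL ℝ k‖ ^ (2 - i)
  have hC : ∀ n x, ‖Laplacian.laplacian (φ n) x‖ ≤ C := by
    intro n x
    refine (lap_le _ _).trans (mul_le_mul_of_nonneg_left ?_ (Nat.cast_nonneg _))
    refine (norm_iteratedFDeriv_mul_le (hχ.comp (sc n).contDiff) hwc x
      (nle 2)).trans (Finset.sum_le_sum fun i _ => ?_)
    have hBi : 0 ≤ B i := (norm_nonneg _).trans (hB i 0)
    exact mul_le_mul (mul_le_mul_of_nonneg_left (hχb n i x) (Nat.cast_nonneg _)) (hwb _ _)
      (norm_nonneg _) (by positivity)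
  have t1 : Tendsto (fun n => ∫ x, u x * Laplacian.laplacian (φ n) x) atTop
      (𝓝 (∫ x, u x * (-(‖k‖ ^ 2) * h ⟪k, x⟫))) := by
    refine tendsto_integral_of_dominated_convergence (fun x => ‖u x‖ * C)
      (fun n => hu.1.mul (lap_cont _ (hφc n)).aestronglyMeasurable) (hu.norm.mul_const C)
      (fun n => Eventually.of_forall fun x => ?_) (Eventually.of_forall fun x => ?_)
    · rw [norm_mul]
      exact mul_le_mul_of_nonneg_left (hC n x) (norm_nonneg _)
    · refine tendsto_const_nhds.congr' ?_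
      filter_upwards [hev x] with n hn
      rw [(InnerProductSpace.laplacian_congr_nhds hn).eq_of_nhds, lap_wave h hh h2]
  have t2 : Tendsto (fun n => ∫ x, F x * φ n x) atTop (𝓝 (∫ x, F x * h ⟪k, x⟫)) := by
    refine tendsto_integral_of_dominated_convergence (fun x => ‖F x‖)
      (fun n => hF.1.mul (hφc n).continuous.aestronglyMeasurable) hF.norm
      (fun n => Eventually.of_forall fun x => ?_) (Eventually.of_forall fun x => ?_)
    · rw [norm_mul]
      refine mul_le_of_le_one_right (norm_nonneg _) ?_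
      simp only [φ, norm_mul]
      refine mul_le_one₀ ?_ (norm_nonneg _) ?_
      · rw [Function.comp_apply, Real.norm_eq_abs, abs_of_nonneg χ.nonneg]
        exact χ.le_one
      · have := hb 0 ⟪k, x⟫
        simpa [w] using this
    · refine tendsto_const_nhds.congr' ?_
      filter_upwards [hev x] with n hn
      rw [hn.eq_of_nhds]
      rfl
  have t3 := t1.const_mul (-(1 / m))
  simp only [fun n => hw (φ n) (hφc n) (hφs n)] at t3
  rw [← tendsto_nhds_unique t3 t2]
  have : ∀ x, u x * (-(‖k‖ ^ 2) * h ⟪k, x⟫) = -(‖k‖ ^ 2) * (u x * h ⟪k, x⟫) := fun x => by ring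
  simp only [this]
  rw [integral_const_mul]
  ring

/-- plane waves -/
noncomputable def ew (k x : Rd d) : ℂ := Complex.exp ((⟪k, x⟫ : ℝ) * Complex.I)

theorem norm_ew (k x : Rd d) : ‖ew k x‖ = 1 := Complex.norm_exp_ofReal_mul_I _

theorem ew_cont (k : Rd d) : Continuous (ew k) := by
  unfold ew
  fun_prop

theorem ew_re (k x : Rd d) : (ew k x).re = Real.cos ⟪k, x⟫ := Complex.exp_ofReal_mul_I_re _

theorem ew_im (k x : Rd d) : (ew k x).im = Real.sin ⟪k, x⟫ := Complex.exp_ofReal_mul_I_im _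

theorem ew_zero (x : Rd d) : ew 0 x = 1 := by simp [ew]

theorem ew_add (k x y : Rd d) : ew k (x + y) = ew k x * ew k y := by
  simp only [ew, inner_add_right, ← Complex.exp_add]
  congr 1
  push_cast
  ring

theorem ew_two (k x : Rd d) : ew ((2 : ℝ) • k) x = ew k x * ew k x := by
  simp only [ew, real_inner_smul_left, ← Complex.exp_add]
  congr 1
  push_cast
  ring

/-- the Fourier transform -/
noncomputable def T (f : Rd d → ℝ) (k : Rd d) : ℂ := ∫ x, (f x : ℂ) * ew k x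

theorem int_ew {f : Rd d → ℝ} (hf : Integrable f) (k : Rd d) :
    Integrable (fun x => (f x : ℂ) * ew k x) :=
  hf.ofReal.mul_bdd (c := 1) (ew_cont k).aestronglyMeasurable
    (Eventually.of_forall fun x => (norm_ew k x).le)

theorem T_re {f : Rd d → ℝ} (hf : Integrable f) (k : Rd d) :
    (T f k).re = ∫ x, f x * Real.cos ⟪k, x⟫ := by
  have := integral_re (int_ew hf k)
  simp only [RCLike.re_to_complex, Complex.re_ofReal_mul, ew_re] at this
  exact this.symm

theorem T_im {f : Rd d → ℝ} (hf : Integrable f) (k : Rd d) :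
    (T f k).im = ∫ x, f x * Real.sin ⟪k, x⟫ := by
  have := integral_im (int_ew hf k)
  simp only [RCLike.im_to_complex, Complex.im_ofReal_mul, ew_im] at this
  exact this.symm

theorem weak_T (m : ℝ) (u F : Rd d → ℝ) (hF : Integrable F) (hs : IsSolution m u F) (k : Rd d) :
    ((‖k‖ ^ 2 / m : ℝ) : ℂ) * T u k = T F k := by
  apply Complex.ext
  · rw [Complex.re_ofReal_mul, T_re hs.1, T_re hF]
    exact weak_wave m u F hF hs Real.cos Real.contDiff_cos (fun t => by simp)
      Real.abs_iteratedDeriv_cos_le_one k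
  · rw [Complex.im_ofReal_mul, T_im hs.1, T_im hF]
    exact weak_wave m u F hF hs Real.sin Real.contDiff_sin (fun t => by simp)
      Real.abs_iteratedDeriv_sin_le_one k

end Pool.Agent.H902Z.ME
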